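import Mathlib

/-!
# Generic leading forms: the algebraic part

Let `J` be an ideal of `k[x][y]` (`x = (x_s)`, `y = (y_t)` finitely many variables), let `K` be an
algebraically closed field containing the field `k` and let `Z ⊆ K^σ × K^τ` be the zero set of `J`.
Then either some nonzero polynomial in `k[x]` vanishes on the projection of `Z` to `K^σ`, or this
projection contains the complement of a hypersurface defined over `k` (Chevalley's theorem and the
Nullstellensatz).
-/

set_option autoImplicit false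

open MvPolynomial

namespace Pool.Agent.MP_410f3c_al.G

variable {σ τ : Type}

theorem exists_prime_over_bot {R S : Type} [CommRing R] [IsDomain R] [CommRing S] (f : R →+* S)
    (hf : Function.Injective f) : ∃ q : PrimeSpectrum S, (PrimeSpectrum.comap f q).asIdeal = ⊥ := by
  have hmin : (⊥ : Ideal R) ∈ minimalPrimes R := by
    rw [IsDomain.minimalPrimes_eq_singleton_bot]
    rfl
  obtain ⟨q, hq, he⟩ := Ideal.exists_comap_eq_of_mem_minimalPrimes_of_injective hf ⊥ hmin
  exact ⟨⟨q, hq⟩, he⟩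

/-- a constructible set containing the generic point contains a nonempty basic open set -/
theorem exists_open_of_bot {R : Type} [CommRing R] [IsDomain R] {s : Set (PrimeSpectrum R)}
    (hs : Topology.IsConstructible s) {x : PrimeSpectrum R} (hx : x ∈ s) (h0 : x.asIdeal = ⊥) :
    ∃ a : R, a ≠ 0 ∧ ∀ p : PrimeSpectrum R, a ∉ p.asIdeal → p ∈ s := by
  obtain ⟨S, rfl⟩ := PrimeSpectrum.exists_constructibleSetData_iff.2 hs
  simp only [PrimeSpectrum.ConstructibleSetData.toSet, Set.mem_iUnion] at hx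
  obtain ⟨D, hD, hx⟩ := hx
  obtain ⟨h1, h2⟩ := hx
  rw [PrimeSpectrum.mem_zeroLocus, h0] at h1 h2
  refine ⟨D.f, ?_, ?_⟩
  · intro hf
    apply h2
    rw [Set.singleton_subset_iff, hf]
    simp
  · intro p hp
    simp only [PrimeSpectrum.ConstructibleSetData.toSet, Set.mem_iUnion]
    refine ⟨D, hD, ?_, ?_⟩
    · rw [PrimeSpectrum.mem_zeroLocus]
      intro g hg
      have : g ∈ ((⊥ : Ideal R) : Set R) := h1 hg
      have hg0 : g = 0 := by simpa using this
      rw [hg0]
      exact p.asIdeal.zero_mem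
    · rw [PrimeSpectrum.mem_zeroLocus, Set.singleton_subset_iff]
      exact hp

theorem generic_lift {R S : Type} [CommRing R] [IsDomain R] [IsNoetherianRing R] [CommRing S]
    [Algebra R S] [hft : Algebra.FiniteType R S] (hinj : Function.Injective (algebraMap R S)) :
    ∃ a : R, a ≠ 0 ∧ ∀ p : Ideal R, p.IsPrime → a ∉ p → ∃ q : Ideal S, q.IsPrime ∧
      q.comap (algebraMap R S) = p := by
  obtain ⟨q, hq⟩ := exists_prime_over_bot (algebraMap R S) hinj
  have hfp : (algebraMap R S).FinitePresentation :=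
    RingHom.FinitePresentation.of_finiteType.1 (RingHom.finiteType_algebraMap.2 hft)
  obtain ⟨a, ha, hopen⟩ := exists_open_of_bot
    (PrimeSpectrum.isConstructible_range_comap hfp) ⟨q, rfl⟩ hq
  refine ⟨a, ha, ?_⟩
  intro p hp hap
  obtain ⟨Q, hQ⟩ := hopen ⟨p, hp⟩ hap
  exact ⟨Q.asIdeal, Q.2, congrArg PrimeSpectrum.asIdeal hQ⟩

theorem generic_lift' {R : Type} [CommRing R] [IsDomain R] [IsNoetherianRing R] [Finite τ]
    (J : Ideal (MvPolynomial τ R)) (hinj : ∀ D : R, C D ∈ J → D = 0) :
    ∃ a : R, a ≠ 0 ∧ ∀ p : Ideal R, p.IsPrime → a ∉ p →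
      ∃ q : Ideal (MvPolynomial τ R), q.IsPrime ∧ J ≤ q ∧ q.comap C = p := by
  have hinj' : Function.Injective (algebraMap R (MvPolynomial τ R ⧸ J)) := by
    rw [injective_iff_map_eq_zero]
    intro D hD
    apply hinj
    rw [← Ideal.Quotient.eq_zero_iff_mem]
    exact hD
  obtain ⟨a, ha, h⟩ := generic_lift (R := R) (S := MvPolynomial τ R ⧸ J) hinj'
  refine ⟨a, ha, ?_⟩
  intro p hp hap
  obtain ⟨q, hq, hqp⟩ := h p hp hap
  refine ⟨q.comap (Ideal.Quotient.mk J), Ideal.comap_isPrime _ _, ?_, ?_⟩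
  · intro P hP
    rw [Ideal.mem_comap, Ideal.Quotient.eq_zero_iff_mem.2 hP]
    exact q.zero_mem
  · rw [← hqp]
    rfl

theorem map_ne_top_aux {R K T : Type} [CommRing R] [CommRing K] [CommRing T] [Nontrivial T]
    (φ : R →+* K) (q : Ideal (MvPolynomial τ R)) (f : K →+* T) (g : (MvPolynomial τ R ⧸ q) →+* T)
    (h : ∀ r : R, f (φ r) = g (Ideal.Quotient.mk q (C r))) : q.map (map φ) ≠ ⊤ := by
  set ψ : MvPolynomial τ K →+* T := eval₂Hom f (fun t => g (Ideal.Quotient.mk q (X t))) with hψ
  have hcomp : ∀ P : MvPolynomial τ R, ψ (map φ P) = g (Ideal.Quotient.mk q P) := by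
    intro P
    induction P using MvPolynomial.induction_on with
    | C r => rw [map_C, hψ, eval₂Hom_C, h]
    | add P Q hP hQ => rw [map_add, map_add, hP, hQ, map_add, map_add]
    | mul_X P t hP =>
      rw [map_mul, map_mul, hP, map_mul, map_mul, map_X, hψ, eval₂Hom_X']
  intro htop
  have hle : q.map (map φ) ≤ RingHom.ker ψ := by
    rw [Ideal.map_le_iff_le_comap]
    intro P hP
    rw [Ideal.mem_comap, RingHom.mem_ker, hcomp, Ideal.Quotient.eq_zero_iff_mem.2 hP, map_zero]
  rw [htop, top_le_iff] at hle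
  exact RingHom.ker_ne_top ψ hle

/-- If `q` is a prime of `R[y]` and `R → K` a homomorphism to a field whose kernel is the
contraction of `q`, then the image of `q` in `K[y]` generates a proper ideal. -/
theorem map_ne_top {R K : Type} [CommRing R] [Field K] (φ : R →+* K) (q : Ideal (MvPolynomial τ R))
    (hq : q.IsPrime) (h : q.comap C = RingHom.ker φ) : q.map (map φ) ≠ ⊤ := by
  classical
  -- the domain `A = R / ker φ`
  have hinjB : Function.Injective (Ideal.quotientMap q (C : R →+* MvPolynomial τ R)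
      (le_of_eq h.symm) : R ⧸ RingHom.ker φ →+* MvPolynomial τ R ⧸ q) :=
    Ideal.quotientMap_injective' (le_of_eq h)
  let _ : Algebra (R ⧸ RingHom.ker φ) (MvPolynomial τ R ⧸ q) :=
    (Ideal.quotientMap q (C : R →+* MvPolynomial τ R) (le_of_eq h.symm)).toAlgebra
  let _ : Algebra (R ⧸ RingHom.ker φ) K := (RingHom.kerLift φ).toAlgebra
  have hinjK : Function.Injective (algebraMap (R ⧸ RingHom.ker φ) K) :=
    RingHom.kerLift_injective φ
  have hdB : IsDomain (MvPolynomial τ R ⧸ q) := Ideal.Quotient.isDomain q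
  have hnt : Nontrivial (TensorProduct (R ⧸ RingHom.ker φ) K (MvPolynomial τ R ⧸ q)) :=
    Algebra.TensorProduct.nontrivial_of_algebraMap_injective_of_isDomain _ _ _ hinjK hinjB
  refine map_ne_top_aux (T := TensorProduct (R ⧸ RingHom.ker φ) K (MvPolynomial τ R ⧸ q)) φ q
    (Algebra.TensorProduct.includeLeft : K →ₐ[R ⧸ RingHom.ker φ] _).toRingHom
    (Algebra.TensorProduct.includeRight : (MvPolynomial τ R ⧸ q) →ₐ[R ⧸ RingHom.ker φ]
        TensorProduct (R ⧸ RingHom.ker φ) K (MvPolynomial τ R ⧸ q)).toRingHom ?_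
  intro r
  have h1 : φ r = algebraMap (R ⧸ RingHom.ker φ) K (Ideal.Quotient.mk _ r) := rfl
  have h2 : Ideal.Quotient.mk q (C r) =
      algebraMap (R ⧸ RingHom.ker φ) (MvPolynomial τ R ⧸ q) (Ideal.Quotient.mk _ r) := rfl
  rw [h1, h2]
  exact (AlgHom.commutes _ _).trans (AlgHom.commutes _ _).symm

variable {k K : Type} [Field k] [Field K] [Algebra k K]

/-- the evaluation of `P ∈ k[x]` at the point `c` -/
noncomputable def evh (k : Type) {K : Type} [Field k] [Field K] [Algebra k K] (c : σ → K) :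
    MvPolynomial σ k →+* K := eval₂Hom (algebraMap k K) c

/-- the evaluation of `P ∈ k[x][y]` at the point `(c, y)` -/
noncomputable def ev (k : Type) {K : Type} [Field k] [Field K] [Algebra k K] (c : σ → K)
    (y : τ → K) : MvPolynomial τ (MvPolynomial σ k) →+* K :=
  (eval y).comp (map (evh k c))

theorem evh_eq (c : σ → K) (D : MvPolynomial σ k) : evh k c D = aeval c D := rfl

theorem ev_C (c : σ → K) (y : τ → K) (D : MvPolynomial σ k) : ev k c y (C D) = aeval c D := by
  rw [ev, RingHom.comp_apply, map_C, eval_C, evh_eq]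

theorem ev_X (c : σ → K) (y : τ → K) (t : τ) : ev k c y (X t) = y t := by
  rw [ev, RingHom.comp_apply, map_X, eval_X]

/-- **The algebraic lemma.** -/
theorem dichotomy [IsAlgClosed K] [Finite σ] [Finite τ]
    (J : Ideal (MvPolynomial τ (MvPolynomial σ k))) :
    (∃ D : MvPolynomial σ k, D ≠ 0 ∧
      ∀ (c : σ → K) (y : τ → K), (∀ P ∈ J, ev k c y P = 0) → aeval c D = 0) ∨
    (∃ a : MvPolynomial σ k, a ≠ 0 ∧
      ∀ c : σ → K, aeval c a ≠ 0 → ∃ y : τ → K, ∀ P ∈ J, ev k c y P = 0) := by
  classical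
  by_cases hinj : ∀ D : MvPolynomial σ k, C D ∈ J → D = 0
  · right
    obtain ⟨a, ha, hopen⟩ := generic_lift' J hinj
    refine ⟨a, ha, ?_⟩
    intro c hc
    obtain ⟨Q, hQp, hJQ, hQ'⟩ := hopen (RingHom.ker (evh k c))
      (RingHom.ker_isPrime _) (by rwa [RingHom.mem_ker, evh_eq])
    set φ : MvPolynomial τ (MvPolynomial σ k) →+* MvPolynomial τ K := map (evh k c) with hφ
    have hne : J.map φ ≠ ⊤ := by
      intro htop
      apply map_ne_top _ Q hQp hQ'
      rw [eq_top_iff, ← htop]
      exact Ideal.map_mono hJQ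
    by_contra hcon
    push Not at hcon
    apply hne
    have h1 : zeroLocus K (J.map φ) = ∅ := by
      ext y
      simp only [mem_zeroLocus_iff, Set.mem_empty_iff_false, iff_false]
      intro h
      obtain ⟨P, hPJ, hP⟩ := hcon y
      apply hP
      have := h (φ P) (Ideal.mem_map_of_mem φ hPJ)
      rw [MvPolynomial.aeval_eq_eval] at this
      exact this
    have h2 := vanishingIdeal_zeroLocus_eq_radical (K := K) (J.map φ)
    rw [h1, vanishingIdeal_empty] at h2
    exact Ideal.radical_eq_top.1 h2.symm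
  · left
    push Not at hinj
    obtain ⟨D, hD, hD0⟩ := hinj
    refine ⟨D, hD0, ?_⟩
    intro c y h
    have := h _ hD
    rwa [ev_C] at this

end Pool.Agent.MP_410f3c_al.G
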