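import Pool.Agent.MP_410f3c_al.G.Int

/-!
# Generic leading forms: elementary bounds
-/

set_option autoImplicit false
set_option linter.unusedSectionVars false

open MvPolynomial MeasureTheory Filter Topology

namespace Pool.Agent.MP_410f3c_al.G

variable {ι : Type} [Fintype ι]

/-- the sum of the coordinates -/
def S (x : ι → ℝ) : ℝ := ∑ i, x i

theorem S_nonneg {x : ι → ℝ} (hx : ∀ i, 0 ≤ x i) : 0 ≤ S x := Finset.sum_nonneg fun i _ => hx i

theorem le_S {x : ι → ℝ} (hx : ∀ i, 0 ≤ x i) (i : ι) : x i ≤ S x :=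
  Finset.single_le_sum (f := x) (fun i _ => hx i) (Finset.mem_univ i)

theorem continuous_S : Continuous (S : (ι → ℝ) → ℝ) := by
  unfold S
  fun_prop

/-- bound for a monomial -/
theorem monomial_bound (s : ι →₀ ℕ) {k : ℕ} (hs : ∑ i, s i ≤ k) {m : ℝ} (hm : 1 ≤ m) {x : ι → ℝ}
    (hx : ∀ i, 0 ≤ x i) : |∏ i, (m * x i) ^ s i| ≤ m ^ k * (1 + S x) ^ k := by
  have hS := S_nonneg hx
  rw [abs_of_nonneg (Finset.prod_nonneg fun i _ => pow_nonneg (mul_nonneg (by linarith) (hx i)) _)]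
  calc ∏ i, (m * x i) ^ s i ≤ ∏ i, (m * (1 + S x)) ^ s i := by
        refine Finset.prod_le_prod (fun i _ => pow_nonneg (mul_nonneg (by linarith) (hx i)) _) ?_
        intro i _
        refine pow_le_pow_left₀ (mul_nonneg (by linarith) (hx i)) ?_ _
        have := le_S hx i
        nlinarith
    _ = (m * (1 + S x)) ^ (∑ i, s i) := by rw [Finset.prod_pow_eq_pow_sum]
    _ ≤ (m * (1 + S x)) ^ k := pow_le_pow_right₀ (by nlinarith) hs
    _ = m ^ k * (1 + S x) ^ k := mul_pow _ _ _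

/-- the sum of the norms of the coefficients -/
noncomputable def cn (h : MvPolynomial ι ℂ) : ℝ := ∑ s ∈ h.support, ‖coeff s h‖

theorem cn_nonneg (h : MvPolynomial ι ℂ) : 0 ≤ cn h := Finset.sum_nonneg fun _ _ => norm_nonneg _

theorem sum_le_totalDegree {h : MvPolynomial ι ℂ} {s : ι →₀ ℕ} (hs : s ∈ h.support) :
    ∑ i, s i ≤ h.totalDegree := by
  have h1 := MvPolynomial.le_totalDegree hs
  have h2 : (s.sum fun _ e => e) = ∑ i, s i := Finsupp.sum_fintype _ _ (fun _ => rfl)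
  omega

theorem eval_bound (h : MvPolynomial ι ℂ) {k : ℕ} (hk : h.totalDegree ≤ k) {m : ℝ} (hm : 1 ≤ m)
    {x : ι → ℝ} (hx : ∀ i, 0 ≤ x i) :
    ‖eval (pt m x) h‖ ≤ cn h * (m ^ k * (1 + S x) ^ k) := by
  rw [eval_pt, cn, Finset.sum_mul]
  refine (norm_sum_le _ _).trans (Finset.sum_le_sum fun s hs => ?_)
  rw [norm_mul, Complex.norm_real, Real.norm_eq_abs]
  exact mul_le_mul_of_nonneg_left
    (monomial_bound s ((sum_le_totalDegree hs).trans hk) hm hx) (norm_nonneg _)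

theorem continuous_eval_pt (h : MvPolynomial ι ℂ) (m : ℝ) :
    Continuous fun x : ι → ℝ => eval (pt m x) h := by
  have : (fun x : ι → ℝ => eval (pt m x) h) =
      fun x => ∑ s ∈ h.support, coeff s h * ((∏ i, (m * x i) ^ s i : ℝ) : ℂ) := by
    funext x
    exact eval_pt h m x
  rw [this]
  fun_prop

/-- the normalised value `g(m x) / m^d` -/
noncomputable def hm (d : ℕ) (g : MvPolynomial ι ℂ) (m : ℕ) (x : ι → ℝ) : ℂ :=
  eval (pt m x) g / (m : ℂ) ^ d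

theorem hm_bound {d : ℕ} {g : MvPolynomial ι ℂ} (hg : g.totalDegree < d) {m : ℕ} (hm1 : 1 ≤ m)
    {x : ι → ℝ} (hx : ∀ i, 0 ≤ x i) :
    ‖hm d g m x‖ ≤ cn g / m * (1 + S x) ^ (d - 1) := by
  have hm1' : (1 : ℝ) ≤ m := by exact_mod_cast hm1
  have h1 := eval_bound g (k := d - 1) (by omega) hm1' hx
  have hmp : (0 : ℝ) < (m : ℝ) ^ d := by positivity
  rw [hm, norm_div, norm_pow, Complex.norm_natCast, div_le_iff₀ hmp]
  refine h1.trans (le_of_eq ?_)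
  obtain ⟨e, rfl⟩ : ∃ e, d = e + 1 := ⟨d - 1, by omega⟩
  simp only [Nat.add_sub_cancel]
  field_simp
  ring

/-- the limit of `m * (g(m x) / m^d)` as `m → ∞`, `x → x₀`  -/
theorem hm_tendsto {d : ℕ} {g : MvPolynomial ι ℂ} (hg : g.totalDegree < d) (x₀ : ι → ℝ) :
    ∃ γ : ℂ, Tendsto (fun a : ℕ × (ι → ℝ) => (a.1 : ℂ) * hm d g a.1 a.2)
      (atTop ×ˢ 𝓝 x₀) (𝓝 γ) := by
  classical
  have hterm : ∀ s ∈ g.support, ∃ γ : ℂ, Tendsto (fun a : ℕ × (ι → ℝ) =>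
      (a.1 : ℂ) * (coeff s g * ((∏ i, (a.1 * a.2 i) ^ s i : ℝ) : ℂ) / (a.1 : ℂ) ^ d))
      (atTop ×ˢ 𝓝 x₀) (𝓝 γ) := by
    intro s hs
    have hsd : ∑ i, s i + 1 ≤ d := by
      have := sum_le_totalDegree hs
      omega
    obtain ⟨e, he⟩ : ∃ e, d = (∑ i, s i) + 1 + e := ⟨d - (∑ i, s i + 1), by omega⟩
    have hx : Tendsto (fun a : ℕ × (ι → ℝ) => ((∏ i, (a.2 i) ^ s i : ℝ) : ℂ))
        (atTop ×ˢ 𝓝 x₀) (𝓝 ((∏ i, (x₀ i) ^ s i : ℝ) : ℂ)) := by
      have hc : Continuous fun x : ι → ℝ => ((∏ i, (x i) ^ s i : ℝ) : ℂ) := by fun_prop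
      exact (hc.tendsto x₀).comp tendsto_snd
    have hinv : Tendsto (fun a : ℕ × (ι → ℝ) => ((a.1 : ℂ)⁻¹) ^ e) (atTop ×ˢ 𝓝 x₀)
        (𝓝 ((0 : ℂ) ^ e)) := by
      have h1 : Tendsto (fun m : ℕ => ((m : ℂ))⁻¹) atTop (𝓝 0) :=
        tendsto_inv_atTop_nhds_zero_nat
      exact (h1.comp tendsto_fst).pow e
    refine ⟨coeff s g * ((∏ i, (x₀ i) ^ s i : ℝ) : ℂ) * (0 : ℂ) ^ e, ?_⟩
    refine ((hx.const_mul (coeff s g)).mul hinv).congr' ?_
    have hev : ∀ᶠ a : ℕ × (ι → ℝ) in atTop ×ˢ 𝓝 x₀, 1 ≤ a.1 :=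
      tendsto_fst.eventually (eventually_ge_atTop 1)
    filter_upwards [hev] with a ha
    have hne : (a.1 : ℂ) ≠ 0 := by
      have : a.1 ≠ 0 := by omega
      exact_mod_cast this
    have h2 : ((∏ i, ((a.1 : ℝ) * a.2 i) ^ s i : ℝ) : ℂ) =
        (a.1 : ℂ) ^ (∑ i, s i) * ((∏ i, (a.2 i) ^ s i : ℝ) : ℂ) := by
      simp only [mul_pow, Finset.prod_mul_distrib, Finset.prod_pow_eq_pow_sum]
      push_cast
      rfl
    rw [h2, he, pow_add, pow_add, pow_one, inv_pow]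
    field_simp
  choose! γ hγ using hterm
  refine ⟨∑ s ∈ g.support, γ s, ?_⟩
  refine (tendsto_finsetSum _ fun s hs => hγ s hs).congr ?_
  intro a
  rw [hm, eval_pt, Finset.sum_div, Finset.mul_sum]

end Pool.Agent.MP_410f3c_al.G
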