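import Mathlib

/-!
# Generic leading forms: `(1 + z)^N → exp t` if `N z → t`
-/

set_option autoImplicit false

open Filter Topology

namespace Pool.Agent.MP_410f3c_al.G

theorem tendsto_one_add_pow {α : Type*} {l : Filter α} {N : α → ℕ} {z : α → ℂ} {t : ℂ}
    (hN : Tendsto N l atTop) (h : Tendsto (fun a => (N a : ℂ) * z a) l (𝓝 t)) :
    Tendsto (fun a => (1 + z a) ^ (N a)) l (𝓝 (Complex.exp t)) := by
  have hNr : Tendsto (fun a => ((N a : ℝ))⁻¹) l (𝓝 0) :=
    tendsto_inv_atTop_zero.comp (tendsto_natCast_atTop_atTop.comp hN)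
  have hNc : Tendsto (fun a => ((N a : ℂ))⁻¹) l (𝓝 0) := by
    have h1 : Tendsto (fun a => ((((N a : ℝ))⁻¹ : ℝ) : ℂ)) l (𝓝 ((0 : ℝ) : ℂ)) :=
      (Complex.continuous_ofReal.tendsto 0).comp hNr
    simpa using h1
  have hN1 : ∀ᶠ a in l, 1 ≤ N a := hN.eventually_ge_atTop 1
  have hz : Tendsto z l (𝓝 0) := by
    have h1 := hNc.mul h
    rw [zero_mul] at h1
    refine h1.congr' ?_
    filter_upwards [hN1] with a ha
    have : (N a : ℂ) ≠ 0 := by
      have : N a ≠ 0 := by omega
      exact_mod_cast this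
    field_simp
  have hzn : Tendsto (fun a => ‖z a‖) l (𝓝 0) := by simpa using hz.norm
  have hz2 : ∀ᶠ a in l, ‖z a‖ < 1 / 2 := hzn.eventually_lt_const (by norm_num)
  have hdiff : Tendsto (fun a => (N a : ℂ) * Complex.log (1 + z a) - (N a : ℂ) * z a) l
      (𝓝 0) := by
    have hb : Tendsto (fun a => ‖(N a : ℂ) * z a‖ * ‖z a‖) l (𝓝 0) := by
      have := h.norm.mul hzn
      simpa using this
    refine squeeze_zero_norm' ?_ hb
    filter_upwards [hz2] with a ha
    rw [← mul_sub, norm_mul, norm_mul, mul_assoc]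
    refine mul_le_mul_of_nonneg_left ?_ (norm_nonneg _)
    have h1 := Complex.norm_log_one_add_sub_self_le (z := z a) (by linarith)
    refine h1.trans ?_
    have h2 : (1 - ‖z a‖)⁻¹ ≤ 2 := by
      rw [inv_le_comm₀ (by linarith) (by norm_num)]
      linarith
    have h3 : 0 ≤ ‖z a‖ ^ 2 := by positivity
    nlinarith
  have hlog : Tendsto (fun a => (N a : ℂ) * Complex.log (1 + z a)) l (𝓝 t) := by
    have := hdiff.add h
    simpa using this
  have hexp := (Complex.continuous_exp.tendsto t).comp hlog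
  refine hexp.congr' ?_
  filter_upwards [hz2] with a ha
  have hne : 1 + z a ≠ 0 := by
    intro h0
    have : z a = -1 := by linear_combination h0
    rw [this] at ha
    norm_num at ha
  simp only [Function.comp]
  rw [Complex.exp_nat_mul, Complex.exp_log hne]

end Pool.Agent.MP_410f3c_al.G
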