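import Pool.Agent.MP_410f3c_al.G.Uniq
import Pool.Agent.MP_410f3c_al.G.AG

/-!
# Generic leading forms: the theorem
-/

set_option autoImplicit false
set_option linter.unusedSectionVars false

open MvPolynomial MeasureTheory Filter Topology

namespace Pool.Agent.MP_410f3c_al.G

variable {ι : Type} [Fintype ι]

/-- the factorial functional over any ring -/
noncomputable def LR {R : Type} [CommRing R] (h : MvPolynomial ι R) : R :=
  ∑ s ∈ h.support, coeff s h * ∏ i : ι, ((s i).factorial : R)

theorem LR_eq (h : MvPolynomial ι ℂ) : LR h = LL h := rfl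

theorem LR_subset {R : Type} [CommRing R] (h : MvPolynomial ι R) {T : Finset (ι →₀ ℕ)}
    (hT : h.support ⊆ T) : LR h = ∑ s ∈ T, coeff s h * ∏ i : ι, ((s i).factorial : R) := by
  rw [LR]
  refine Finset.sum_subset hT ?_
  intro s _ hs
  rw [notMem_support_iff.1 hs, zero_mul]

theorem LR_map {R R' : Type} [CommRing R] [CommRing R'] (φ : R →+* R') (h : MvPolynomial ι R) :
    φ (LR h) = LR (map φ h) := by
  rw [LR_subset (map φ h) (support_map_subset φ h), LR, map_sum]
  refine Finset.sum_congr rfl fun s _ => ?_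
  rw [map_mul, map_prod, coeff_map]
  simp

/-- the exponents of degree less than `d` -/
noncomputable def low (ι : Type) [Fintype ι] (d : ℕ) : Finset (ι →₀ ℕ) := by
  classical
  exact (Finset.range d).biUnion fun k => Finset.finsuppAntidiag Finset.univ k

theorem mem_low {d : ℕ} {s : ι →₀ ℕ} : s ∈ low ι d ↔ ∑ i, s i < d := by
  classical
  simp only [low, Finset.mem_biUnion, Finset.mem_range, Finset.mem_finsuppAntidiag]
  constructor
  · rintro ⟨k, hk, h, -⟩
    rw [h]
    exact hk
  · intro h
    exact ⟨_, h, rfl, Finset.subset_univ _⟩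

variable (A : Finset (ι →₀ ℕ)) (d : ℕ)

/-- the universal polynomial with leading form supported in `A` -/
noncomputable def univ : MvPolynomial ι (MvPolynomial (low ι d) (MvPolynomial A ℚ)) :=
  (∑ a : A, monomial a.1 (C (X a))) + ∑ b : low ι d, monomial b.1 (X b)

/-- the form with coefficients `c` -/
noncomputable def form (c : A → ℂ) : MvPolynomial ι ℂ := ∑ a : A, monomial a.1 (c a)

/-- the lower terms with coefficients `y` -/
noncomputable def lowp (y : low ι d → ℂ) : MvPolynomial ι ℂ := ∑ b : low ι d, monomial b.1 (y b)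

theorem map_univ (c : A → ℂ) (y : low ι d → ℂ) :
    map (ev ℚ c y) (univ A d) = form A c + lowp d y := by
  rw [univ, form, lowp, map_add, map_sum, map_sum]
  congr 1
  · refine Finset.sum_congr rfl fun a _ => ?_
    rw [map_monomial, ev_C, aeval_X]
  · refine Finset.sum_congr rfl fun b _ => ?_
    rw [map_monomial, ev_X]

theorem lowp_coeff {g : MvPolynomial ι ℂ} (hg : g.totalDegree < d) :
    lowp d (fun b => coeff b.1 g) = g := by
  classical
  rw [lowp]
  have h1 : ∑ b : low ι d, monomial b.1 (coeff b.1 g) = ∑ b ∈ low ι d, monomial b (coeff b g) :=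
    Finset.sum_coe_sort (low ι d) (fun b => monomial b (coeff b g))
  rw [h1]
  conv_rhs => rw [as_sum g]
  symm
  refine Finset.sum_subset ?_ ?_
  · intro s hs
    rw [mem_low]
    have := sum_le_totalDegree hs
    omega
  · intro s _ hs
    rw [notMem_support_iff.1 hs, monomial_zero]

theorem lowp_deg (hd : 0 < d) (y : low ι d → ℂ) : (lowp d y).totalDegree < d := by
  classical
  have h : (lowp d y).totalDegree ≤ d - 1 := by
    rw [lowp]
    refine totalDegree_finsetSum_le fun b _ => ?_
    refine (totalDegree_monomial_le _ _).trans ?_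
    have h1 := mem_low.1 b.2
    rw [Finsupp.sum_fintype _ _ (fun _ => rfl)]
    simp only [id] at *
    omega
  omega

/-- The value of a real form at a real point. -/
theorem form_eval (hA : ∀ a ∈ A, ∑ i, a i = d) (c : A → ℝ) (m : ℕ) (x : ι → ℝ) :
    eval (pt m x) (form A fun a => (c a : ℂ)) = (m : ℂ) ^ d * (FF A c x : ℂ) := by
  rw [form, FF, map_sum]
  push_cast
  rw [Finset.mul_sum]
  refine Finset.sum_congr rfl fun a _ => ?_
  rw [eval_monomial, Finsupp.prod_fintype _ _ (fun i => pow_zero _)]
  simp only [pt]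
  push_cast
  simp only [mul_pow, Finset.prod_mul_distrib, Finset.prod_pow_eq_pow_sum, hA a.1 a.2]
  ring

/-- the ideal of the first `M` moments of the universal polynomial -/
noncomputable def JM (M : ℕ) : Ideal (MvPolynomial (low ι d) (MvPolynomial A ℚ)) :=
  Ideal.span {P | ∃ m : ℕ, 1 ≤ m ∧ m ≤ M ∧ P = LR (univ A d ^ m)}

theorem JM_mono : Monotone (JM A d) := by
  intro M N hMN
  refine Ideal.span_mono ?_
  rintro P ⟨m, h1, h2, rfl⟩
  exact ⟨m, h1, h2.trans hMN, rfl⟩

theorem JM_stable : ∃ M : ℕ, ∀ m : ℕ, 1 ≤ m → LR (univ A d ^ m) ∈ JM A d M := by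
  obtain ⟨M, hM⟩ := monotone_stabilizes_iff_noetherian.2
    (inferInstance : IsNoetherianRing (MvPolynomial (low ι d) (MvPolynomial A ℚ)))
    ⟨JM A d, JM_mono A d⟩
  refine ⟨M, fun m hm => ?_⟩
  have h1 : LR (univ A d ^ m) ∈ JM A d (max M m) :=
    Ideal.subset_span ⟨m, hm, le_max_right _ _, rfl⟩
  have h2 : JM A d M = JM A d (max M m) := hM _ (le_max_left _ _)
  rw [h2]
  exact h1

/-- **Generic leading forms.** -/
theorem generic (hA : ∀ a ∈ A, ∑ i, a i = d) (hAn : A.Nonempty) (hd : 0 < d) :
    ∃ (D : MvPolynomial A ℚ) (M : ℕ), D ≠ 0 ∧ ∀ c : A → ℂ, aeval c D ≠ 0 →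
      ∀ g : MvPolynomial ι ℂ, g.totalDegree < d →
        ∃ m : ℕ, 1 ≤ m ∧ m ≤ M ∧ LL ((form A c + g) ^ m) ≠ 0 := by
  classical
  obtain ⟨M, hM⟩ := JM_stable A d
  have hev : ∀ (c : A → ℂ) (y : low ι d → ℂ) (m : ℕ),
      ev ℚ c y (LR (univ A d ^ m)) = LL ((form A c + lowp d y) ^ m) := by
    intro c y m
    rw [LR_map, map_pow, map_univ, LR_eq]
  rcases dichotomy (K := ℂ) (JM A d M) with ⟨D, hD, h⟩ | ⟨a₀, ha₀, h⟩
  · refine ⟨D, M, hD, ?_⟩
    intro c hc g hg
    by_contra hcon
    push Not at hcon
    apply hc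
    refine h c (fun b => coeff b.1 g) ?_
    have hle : JM A d M ≤ RingHom.ker (ev ℚ c (fun b : low ι d => coeff b.1 g)) := by
      rw [JM, Ideal.span_le]
      rintro P ⟨m, hm, hmM, rfl⟩
      simp only [SetLike.mem_coe, RingHom.mem_ker]
      rw [hev, lowp_coeff d hg]
      exact hcon m hm hmM
    intro P hP
    exact hle hP
  · exfalso
    -- a good real coefficient vector outside the hypersurface `a₀ = 0`
    set b₀ : MvPolynomial A ℂ := map (algebraMap ℚ ℂ) a₀ with hb₀
    have hb0 : b₀ ≠ 0 := by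
      intro h0
      apply ha₀
      apply map_injective (algebraMap ℚ ℂ) (algebraMap ℚ ℂ).injective
      rw [map_zero]
      exact h0
    have hab : ∀ z : A → ℂ, aeval z a₀ = eval z b₀ := by
      intro z
      rw [hb₀, eval_map]
      rfl
    set W : Set (A → ℝ) := {c | eval (fun a => (c a : ℂ)) b₀ ≠ 0} with hW
    have hcont : Continuous fun c : A → ℝ => eval (fun a => (c a : ℂ)) b₀ := by
      have h1 : Continuous fun z : A → ℂ => eval z b₀ := MvPolynomial.continuous_eval b₀
      exact h1.comp (continuous_pi fun a => Complex.continuous_ofReal.comp (continuous_apply a))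
    have hWo : IsOpen W := isOpen_ne_fun hcont continuous_const
    have hWn : W.Nonempty := by
      by_contra hcon
      rw [Set.not_nonempty_iff_eq_empty] at hcon
      apply hb0
      refine funext_set (fun _ => Set.range (fun t : ℝ => (t : ℂ)))
        (fun _ => Set.infinite_range_of_injective Complex.ofReal_injective) ?_
      intro z hz
      choose c hc using fun a => hz a (Set.mem_univ a)
      have h1 : c ∉ W := by rw [hcon]; simp
      have h3 : eval (fun a => ((c a : ℝ) : ℂ)) b₀ = 0 := not_not.1 h1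
      have h2 : (fun a => ((c a : ℝ) : ℂ)) = z := funext hc
      rw [h2] at h3
      rw [h3, map_zero]
    obtain ⟨c, hcW, x₀, hMx⟩ := good_dense hA hAn hWo hWn
    have hcW' : aeval (fun a => (c a : ℂ)) a₀ ≠ 0 := by
      rw [hab]
      exact hcW
    obtain ⟨y, hy⟩ := h (fun a => (c a : ℂ)) hcW'
    obtain ⟨m₀, hm₀⟩ := laplace (continuous_FF A c) hMx (form_eval A d hA c) (lowp_deg d hd y)
    have h1 := hm₀ (2 * (m₀ + 1)) (by omega) (even_two_mul _)
    apply h1
    rw [← hev]
    exact hy _ (hM _ (by omega))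

end Pool.Agent.MP_410f3c_al.G
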