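import Mathlib

/-!
# Generic leading forms: the factorial functional as an integral over the orthant
-/

set_option autoImplicit false
set_option linter.unusedSectionVars false

open MvPolynomial MeasureTheory

namespace Pool.Agent.MP_410f3c_al.G

variable {ι : Type} [Fintype ι]

/-- Lebesgue measure on the open orthant -/
noncomputable def om (ι : Type) [Fintype ι] : Measure (ι → ℝ) :=
  Measure.pi (fun _ => volume.restrict (Set.Ioi 0))

/-- the open orthant -/
def orth (ι : Type) : Set (ι → ℝ) := Set.univ.pi (fun _ => Set.Ioi 0)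

theorem om_eq : om ι = volume.restrict (orth ι) := by
  rw [om, orth, volume_pi, Measure.restrict_pi_pi]

theorem isOpen_orth : IsOpen (orth ι) := isOpen_set_pi Set.finite_univ (fun _ _ => isOpen_Ioi)

theorem mem_orth {x : ι → ℝ} : x ∈ orth ι ↔ ∀ i, 0 < x i := by
  simp [orth]

theorem measurableSet_orth : MeasurableSet (orth ι) := isOpen_orth.measurableSet

/-- the factorial functional -/
noncomputable def LL (h : MvPolynomial ι ℂ) : ℂ :=
  ∑ s ∈ h.support, coeff s h * ∏ i : ι, ((s i).factorial : ℂ)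

theorem integrableOn_pow_exp (k : ℕ) {r : ℝ} (hr : 0 < r) :
    IntegrableOn (fun x : ℝ => x ^ k * Real.exp (-(r * x))) (Set.Ioi 0) := by
  have h := integrableOn_rpow_mul_exp_neg_mul_rpow (p := 1) (s := (k : ℝ)) (b := r)
    (by have : (0 : ℝ) ≤ k := Nat.cast_nonneg k
        linarith) one_pos hr
  refine h.congr_fun ?_ measurableSet_Ioi
  intro x hx
  simp only [Real.rpow_natCast, Real.rpow_one]
  rw [neg_mul]

theorem integral_pow_exp (k : ℕ) {r : ℝ} (hr : 0 < r) :
    ∫ x in Set.Ioi (0 : ℝ), x ^ k * Real.exp (-(r * x)) = k.factorial / r ^ (k + 1) := by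
  have h := Real.integral_rpow_mul_exp_neg_mul_Ioi (a := (k : ℝ) + 1) (r := r)
    (by positivity) hr
  rw [Real.Gamma_nat_eq_factorial] at h
  have h2 : ∫ x in Set.Ioi (0 : ℝ), x ^ k * Real.exp (-(r * x)) =
      ∫ t in Set.Ioi (0 : ℝ), t ^ ((k : ℝ) + 1 - 1) * Real.exp (-(r * t)) := by
    refine setIntegral_congr_fun measurableSet_Ioi ?_
    intro x hx
    simp only [add_sub_cancel_right, Real.rpow_natCast]
  rw [h2, h, one_div, ← Real.rpow_natCast r (k + 1), Nat.cast_add, Nat.cast_one,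
    Real.inv_rpow hr.le, inv_mul_eq_div]

theorem sum_exp (r : ℝ) (x : ι → ℝ) : Real.exp (-(r * ∑ i, x i)) = ∏ i, Real.exp (-(r * x i)) := by
  rw [← Real.exp_sum, Finset.mul_sum, Finset.sum_neg_distrib]

theorem integrable_monomial (s : ι → ℕ) {r : ℝ} (hr : 0 < r) :
    Integrable (fun x : ι → ℝ => (∏ i, x i ^ s i) * Real.exp (-(r * ∑ i, x i))) (om ι) := by
  have h : (fun x : ι → ℝ => (∏ i, x i ^ s i) * Real.exp (-(r * ∑ i, x i))) =
      fun x : ι → ℝ => ∏ i, (x i ^ s i * Real.exp (-(r * x i))) := by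
    funext x
    rw [sum_exp, Finset.prod_mul_distrib]
  rw [h]
  exact Integrable.fintype_prod (f := fun i (t : ℝ) => t ^ s i * Real.exp (-(r * t)))
    (fun i => integrableOn_pow_exp (s i) hr)

theorem integral_monomial (s : ι → ℕ) {r : ℝ} (hr : 0 < r) :
    ∫ x : ι → ℝ, (∏ i, x i ^ s i) * Real.exp (-(r * ∑ i, x i)) ∂(om ι) =
      ∏ i, ((s i).factorial / r ^ (s i + 1)) := by
  have h : (fun x : ι → ℝ => (∏ i, x i ^ s i) * Real.exp (-(r * ∑ i, x i))) =
      fun x : ι → ℝ => ∏ i, (x i ^ s i * Real.exp (-(r * x i))) := by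
    funext x
    rw [sum_exp, Finset.prod_mul_distrib]
  rw [h, om, integral_fintype_prod_eq_prod (f := fun i (t : ℝ) => t ^ s i * Real.exp (-(r * t)))]
  exact Finset.prod_congr rfl (fun i _ => integral_pow_exp (s i) hr)

/-- the complex point `m x` -/
noncomputable def pt (m : ℝ) (x : ι → ℝ) : ι → ℂ := fun i => ((m * x i : ℝ) : ℂ)

theorem eval_pt (h : MvPolynomial ι ℂ) (m : ℝ) (x : ι → ℝ) :
    eval (pt m x) h = ∑ s ∈ h.support, coeff s h * ((∏ i, (m * x i) ^ s i : ℝ) : ℂ) := by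
  rw [eval_eq']
  refine Finset.sum_congr rfl (fun s _ => ?_)
  simp only [pt]
  push_cast
  rfl

theorem integrable_eval (h : MvPolynomial ι ℂ) (m : ℝ) {r : ℝ} (hr : 0 < r) :
    Integrable (fun x : ι → ℝ => eval (pt m x) h * ((Real.exp (-(r * ∑ i, x i)) : ℝ) : ℂ))
      (om ι) := by
  have e : (fun x : ι → ℝ => eval (pt m x) h * ((Real.exp (-(r * ∑ i, x i)) : ℝ) : ℂ)) =
      fun x : ι → ℝ => ∑ s ∈ h.support, (coeff s h * ((∏ i, m ^ s i : ℝ) : ℂ)) *
        (((∏ i, x i ^ s i) * Real.exp (-(r * ∑ i, x i)) : ℝ) : ℂ) := by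
    funext x
    rw [eval_pt, Finset.sum_mul]
    refine Finset.sum_congr rfl (fun s _ => ?_)
    simp only [mul_pow, Finset.prod_mul_distrib]
    push_cast
    ring
  rw [e]
  refine integrable_finsetSum _ (fun s _ => ?_)
  exact (integrable_monomial (fun i => s i) hr).ofReal.const_mul _

theorem integral_eval (h : MvPolynomial ι ℂ) {m : ℝ} (hm : 0 < m) :
    ∫ x : ι → ℝ, eval (pt m x) h * ((Real.exp (-(m * ∑ i, x i)) : ℝ) : ℂ) ∂(om ι) =
      LL h * ((m : ℂ)⁻¹) ^ Fintype.card ι := by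
  have e : (fun x : ι → ℝ => eval (pt m x) h * ((Real.exp (-(m * ∑ i, x i)) : ℝ) : ℂ)) =
      fun x : ι → ℝ => ∑ s ∈ h.support, (coeff s h * ((∏ i, m ^ s i : ℝ) : ℂ)) *
        (((∏ i, x i ^ s i) * Real.exp (-(m * ∑ i, x i)) : ℝ) : ℂ) := by
    funext x
    rw [eval_pt, Finset.sum_mul]
    refine Finset.sum_congr rfl (fun s _ => ?_)
    simp only [mul_pow, Finset.prod_mul_distrib]
    push_cast
    ring
  rw [e, integral_finsetSum]
  · rw [LL, Finset.sum_mul]
    refine Finset.sum_congr rfl (fun s _ => ?_)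
    rw [integral_const_mul]
    have h1 : ∫ x : ι → ℝ, (((∏ i, x i ^ s i) * Real.exp (-(m * ∑ i, x i)) : ℝ) : ℂ) ∂(om ι) =
        ((∏ i, (((s i).factorial : ℝ) / m ^ (s i + 1)) : ℝ) : ℂ) := by
      rw [integral_complex_ofReal, integral_monomial (fun i => s i) hm]
    rw [h1, mul_assoc, mul_assoc]
    congr 1
    rw [← Complex.ofReal_mul, ← Finset.prod_mul_distrib, ← Finset.card_univ,
      ← Finset.prod_const, ← Finset.prod_mul_distrib]
    push_cast
    refine Finset.prod_congr rfl (fun i _ => ?_)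
    have hm' : (m : ℂ) ≠ 0 := by exact_mod_cast hm.ne'
    field_simp
    ring
  · intro s _
    exact (integrable_monomial (fun i => s i) hm).ofReal.const_mul _

end Pool.Agent.MP_410f3c_al.G
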