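import Pool.Agent.MP_410f3c_al.G.Bound
import Pool.Agent.MP_410f3c_al.G.ExpLim

/-!
# Generic leading forms: Laplace's method for a real form with a unique maximum
-/

set_option autoImplicit false
set_option linter.unusedSectionVars false

open MvPolynomial MeasureTheory Filter Topology

namespace Pool.Agent.MP_410f3c_al.G

variable {ι : Type} [Fintype ι]

/-- `1 + t ≤ exp t` powers: `(1 + t)^k ≤ C exp (t / 2)` -/
theorem pow_le_exp (k : ℕ) : ∃ B : ℝ, 0 < B ∧ ∀ t : ℝ, 0 ≤ t →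
    (1 + t) ^ k * Real.exp (-(t / 2)) ≤ B := by
  refine ⟨(k.factorial : ℝ) * 2 ^ k * Real.exp (1 / 2), by positivity, ?_⟩
  intro t ht
  have h1 : ((1 + t) / 2) ^ k / (k.factorial : ℝ) ≤ Real.exp ((1 + t) / 2) :=
    Real.pow_div_factorial_le_exp _ (by linarith) k
  have hk : (0 : ℝ) < (k.factorial : ℝ) := by positivity
  rw [div_le_iff₀ hk, div_pow, div_le_iff₀ (by positivity)] at h1
  have h2 : Real.exp ((1 + t) / 2) = Real.exp (1 / 2) * Real.exp (t / 2) := by
    rw [← Real.exp_add]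
    congr 1
    ring
  rw [h2] at h1
  calc (1 + t) ^ k * Real.exp (-(t / 2))
      ≤ (Real.exp (1 / 2) * Real.exp (t / 2) * (k.factorial : ℝ) * 2 ^ k) *
          Real.exp (-(t / 2)) := mul_le_mul_of_nonneg_right h1 (Real.exp_pos _).le
    _ = (k.factorial : ℝ) * 2 ^ k * Real.exp (1 / 2) *
          (Real.exp (t / 2) * Real.exp (-(t / 2))) := by ring
    _ = (k.factorial : ℝ) * 2 ^ k * Real.exp (1 / 2) := by
        rw [← Real.exp_add]
        simp

/-- `(1 + t)^k exp (-t/2) → 0` -/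
theorem pow_exp_small (k : ℕ) {ε : ℝ} (hε : 0 < ε) : ∃ R : ℝ, 0 < R ∧ ∀ t : ℝ, R ≤ t →
    (1 + t) ^ k * Real.exp (-(t / 2)) ≤ ε := by
  obtain ⟨B, hB, hb⟩ := pow_le_exp (k + 1)
  refine ⟨max 1 (B / ε), by positivity, ?_⟩
  intro t ht
  have h1 : 1 ≤ t := (le_max_left _ _).trans ht
  have h2 : B / ε ≤ t := (le_max_right _ _).trans ht
  have h3 := hb t (by linarith)
  have h4 : 0 ≤ (1 + t) ^ k * Real.exp (-(t / 2)) := by positivity
  rw [div_le_iff₀ hε] at h2
  rw [pow_succ] at h3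
  by_contra hcon
  push Not at hcon
  have h5 : ε * (1 + t) < ((1 + t) ^ k * Real.exp (-(t / 2))) * (1 + t) :=
    mul_lt_mul_of_pos_right hcon (by linarith)
  nlinarith

/-- The data: a nonnegative continuous function `A` (the absolute value of the form) with
polynomial growth, and a unique maximum point of `A exp (-S)` on the closed orthant. -/
structure Mx (A : (ι → ℝ) → ℝ) (x₀ : ι → ℝ) (d : ℕ) : Prop where
  cont : Continuous A
  nonneg : ∀ x, 0 ≤ A x
  growth : ∃ C : ℝ, 0 < C ∧ ∀ x : ι → ℝ, (∀ i, 0 ≤ x i) → A x ≤ C * (1 + S x) ^ d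
  mem : ∀ i, 0 ≤ x₀ i
  pos : 0 < A x₀
  uniq : ∀ x : ι → ℝ, (∀ i, 0 ≤ x i) → x ≠ x₀ →
    A x * Real.exp (-S x) < A x₀ * Real.exp (-S x₀)

variable {A : (ι → ℝ) → ℝ} {x₀ : ι → ℝ} {d : ℕ}

/-- outside a neighbourhood of the maximum point the function is smaller, even after multiplication
by `exp (θ S)` -/
theorem Mx.gap (h : Mx A x₀ d) {U : Set (ι → ℝ)} (hU : U ∈ 𝓝 x₀) :
    ∃ θ q : ℝ, 0 < θ ∧ θ ≤ 1 / 2 ∧ 0 < q ∧ q < A x₀ * Real.exp (-S x₀) ∧
      ∀ x : ι → ℝ, (∀ i, 0 ≤ x i) → x ∉ U → A x * Real.exp (-((1 - θ) * S x)) ≤ q := by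
  set M := A x₀ * Real.exp (-S x₀) with hM
  have hMp : 0 < M := mul_pos h.pos (Real.exp_pos _)
  obtain ⟨C, hC, hgr⟩ := h.growth
  obtain ⟨R, hR, hRs⟩ := pow_exp_small d (ε := M / 2 / C) (by positivity)
  obtain ⟨V, hVU, hVo, hxV⟩ := mem_nhds_iff.1 hU
  -- the compact part
  have hKc : IsCompact ({x : ι → ℝ | (∀ i, 0 ≤ x i) ∧ S x ≤ R} ∩ Vᶜ) := by
    apply IsCompact.inter_right _ hVo.isClosed_compl
    have hsub : {x : ι → ℝ | (∀ i, 0 ≤ x i) ∧ S x ≤ R} ⊆ Set.Icc (0 : ι → ℝ) (fun _ => R) := by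
      intro x hx
      exact ⟨fun i => hx.1 i, fun i => (le_S hx.1 i).trans hx.2⟩
    refine isCompact_Icc.of_isClosed_subset ?_ hsub
    have h1 : IsClosed {x : ι → ℝ | ∀ i, 0 ≤ x i} := by
      rw [Set.ofPred_forall]
      exact isClosed_iInter fun i => isClosed_le continuous_const (continuous_apply i)
    exact h1.inter (isClosed_le continuous_S continuous_const)
  have hq1 : ∃ q₁ : ℝ, 0 < q₁ ∧ q₁ < M ∧ ∀ x : ι → ℝ, (∀ i, 0 ≤ x i) → S x ≤ R → x ∉ V →
      A x * Real.exp (-S x) ≤ q₁ := by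
    rcases ({x : ι → ℝ | (∀ i, 0 ≤ x i) ∧ S x ≤ R} ∩ Vᶜ).eq_empty_or_nonempty with he | hne
    · refine ⟨M / 2, by positivity, by linarith, ?_⟩
      intro x h1 h2 h3
      exfalso
      have : x ∈ ({x : ι → ℝ | (∀ i, 0 ≤ x i) ∧ S x ≤ R} ∩ Vᶜ) := ⟨⟨h1, h2⟩, h3⟩
      rw [he] at this
      exact this
    · have hcont : ContinuousOn (fun x : ι → ℝ => A x * Real.exp (-S x))
          ({x : ι → ℝ | (∀ i, 0 ≤ x i) ∧ S x ≤ R} ∩ Vᶜ) := by
        apply Continuous.continuousOn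
        exact h.cont.mul (Real.continuous_exp.comp continuous_S.neg)
      obtain ⟨y, hy, hmax⟩ := hKc.exists_isMaxOn hne hcont
      have hyne : y ≠ x₀ := by
        rintro rfl
        exact hy.2 hxV
      have hlt := h.uniq y hy.1.1 hyne
      refine ⟨max (A y * Real.exp (-S y)) (M / 2), by positivity, max_lt hlt (by linarith), ?_⟩
      intro x h1 h2 h3
      exact (hmax ⟨⟨h1, h2⟩, h3⟩).trans (le_max_left _ _)
  obtain ⟨q₁, hq₁, hq₁M, hq₁b⟩ := hq1
  -- the choice of `θ`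
  have hθ : ∃ θ : ℝ, 0 < θ ∧ θ ≤ 1 / 2 ∧ Real.exp (θ * R) * q₁ < M := by
    have hc : Tendsto (fun θ : ℝ => Real.exp (θ * R) * q₁) (𝓝[>] 0) (𝓝 (Real.exp (0 * R) * q₁)) := by
      have hcc : Continuous fun θ : ℝ => Real.exp (θ * R) * q₁ := by fun_prop
      exact (hcc.tendsto 0).mono_left nhdsWithin_le_nhds
    rw [zero_mul, Real.exp_zero, one_mul] at hc
    have h1 := hc.eventually_lt_const hq₁M
    have h2 : ∀ᶠ θ : ℝ in 𝓝[>] 0, θ ∈ Set.Ioc (0 : ℝ) (1 / 2) :=
      Ioc_mem_nhdsGT (by norm_num)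
    obtain ⟨θ, h3, h4⟩ := (h1.and h2).exists
    exact ⟨θ, h4.1, h4.2, h3⟩
  obtain ⟨θ, hθ0, hθ1, hθM⟩ := hθ
  refine ⟨θ, max (Real.exp (θ * R) * q₁) (M / 2), hθ0, hθ1, by positivity,
    max_lt hθM (by linarith), ?_⟩
  intro x hx hxU
  have hS := S_nonneg hx
  by_cases hSR : S x ≤ R
  · refine le_trans ?_ (le_max_left _ _)
    have h1 := hq₁b x hx hSR (fun hV => hxU (hVU hV))
    have h2 : Real.exp (-((1 - θ) * S x)) = Real.exp (θ * S x) * Real.exp (-S x) := by
      rw [← Real.exp_add]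
      congr 1
      ring
    rw [h2]
    have h3 : Real.exp (θ * S x) ≤ Real.exp (θ * R) :=
      Real.exp_le_exp.2 (mul_le_mul_of_nonneg_left hSR hθ0.le)
    calc A x * (Real.exp (θ * S x) * Real.exp (-S x))
        = Real.exp (θ * S x) * (A x * Real.exp (-S x)) := by ring
      _ ≤ Real.exp (θ * R) * q₁ :=
          mul_le_mul h3 h1 (mul_nonneg (h.nonneg x) (Real.exp_pos _).le) (Real.exp_pos _).le
  · refine le_trans ?_ (le_max_right _ _)
    push Not at hSR
    have h1 := hRs (S x) hSR.le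
    have h2 : Real.exp (-((1 - θ) * S x)) ≤ Real.exp (-(S x / 2)) := by
      apply Real.exp_le_exp.2
      nlinarith
    calc A x * Real.exp (-((1 - θ) * S x))
        ≤ (C * (1 + S x) ^ d) * Real.exp (-(S x / 2)) :=
          mul_le_mul (hgr x hx) h2 (Real.exp_pos _).le (by positivity)
      _ = C * ((1 + S x) ^ d * Real.exp (-(S x / 2))) := by ring
      _ ≤ C * (M / 2 / C) := mul_le_mul_of_nonneg_left h1 hC.le
      _ = M / 2 := by field_simp

/-- the open set near `x₀` where the function is close to its maximum has positive volume -/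
theorem Mx.near (h : Mx A x₀ d) {q₃ r : ℝ} (hq : q₃ < A x₀ * Real.exp (-S x₀)) (hr : 0 < r) :
    0 < (om ι (Metric.ball x₀ r ∩ {x | q₃ < A x * Real.exp (-S x)})).toReal := by
  set V : Set (ι → ℝ) := Metric.ball x₀ r ∩ {x | q₃ < A x * Real.exp (-S x)} with hV
  have hcont : Continuous fun x : ι → ℝ => A x * Real.exp (-S x) :=
    h.cont.mul (Real.continuous_exp.comp continuous_S.neg)
  have hVo : IsOpen V := Metric.isOpen_ball.inter (isOpen_lt continuous_const hcont)
  have hx₀ : x₀ ∈ V := ⟨Metric.mem_ball_self hr, hq⟩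
  have hne : (V ∩ orth ι).Nonempty := by
    -- the points `x₀ + t (1, …, 1)` are in the open orthant
    have hc : Tendsto (fun t : ℝ => fun i => x₀ i + t) (𝓝[>] 0) (𝓝 x₀) := by
      have hcc : Continuous fun t : ℝ => fun i : ι => x₀ i + t := by fun_prop
      have := (hcc.tendsto 0).mono_left (nhdsWithin_le_nhds (s := Set.Ioi (0 : ℝ)))
      simpa using this
    have h1 := hc.eventually (hVo.mem_nhds hx₀)
    have h2 : ∀ᶠ t : ℝ in 𝓝[>] 0, t ∈ Set.Ioi (0 : ℝ) := self_mem_nhdsWithin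
    obtain ⟨t, h3, h4⟩ := (h1.and h2).exists
    refine ⟨fun i => x₀ i + t, h3, ?_⟩
    rw [mem_orth]
    intro i
    have := h.mem i
    have : 0 < t := h4
    linarith [h.mem i]
  have hpos : 0 < om ι V := by
    rw [om_eq, Measure.restrict_apply hVo.measurableSet]
    exact (hVo.inter isOpen_orth).measure_pos _ hne
  have hfin : om ι V < ⊤ := by
    rw [om_eq]
    refine (Measure.restrict_apply_le _ _).trans_lt ?_
    exact (measure_mono Set.inter_subset_left).trans_lt measure_ball_lt_top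
  exact ENNReal.toReal_pos hpos.ne' hfin.ne

/-- **Laplace's method.** -/
theorem laplace {F : (ι → ℝ) → ℝ} (hFc : Continuous F) (h : Mx (fun x => |F x|) x₀ d)
    {P g : MvPolynomial ι ℂ}
    (hP : ∀ (m : ℕ) (x : ι → ℝ), eval (pt m x) P = (m : ℂ) ^ d * (F x : ℂ))
    (hg : g.totalDegree < d) :
    ∃ m₀ : ℕ, ∀ m : ℕ, m₀ ≤ m → Even m → LL ((P + g) ^ m) ≠ 0 := by
  classical
  obtain ⟨γ, hγ⟩ := hm_tendsto hg x₀
  have hF0 : F x₀ ≠ 0 := by
    have := h.pos
    simpa using this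
  have hF0c : (F x₀ : ℂ) ≠ 0 := by exact_mod_cast hF0
  set E : ℂ := Complex.exp (γ / (F x₀ : ℂ)) with hE
  have hEp : 0 < ‖E‖ := norm_pos_iff.2 (Complex.exp_ne_zero _)
  have hFt : Tendsto (fun a : ℕ × (ι → ℝ) => (F a.2 : ℂ)) (atTop ×ˢ 𝓝 x₀) (𝓝 (F x₀ : ℂ)) :=
    ((Complex.continuous_ofReal.comp hFc).tendsto x₀).comp tendsto_snd
  have hlim : Tendsto (fun a : ℕ × (ι → ℝ) => (1 + hm d g a.1 a.2 / (F a.2 : ℂ)) ^ a.1)
      (atTop ×ˢ 𝓝 x₀) (𝓝 E) := by
    refine tendsto_one_add_pow tendsto_fst ?_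
    refine (hγ.div hFt hF0c).congr ?_
    intro a
    simp only [Pi.div_apply, mul_div_assoc]
  have hev1 : ∀ᶠ a : ℕ × (ι → ℝ) in atTop ×ˢ 𝓝 x₀,
      ‖(1 + hm d g a.1 a.2 / (F a.2 : ℂ)) ^ a.1 - E‖ < ‖E‖ / 2 := by
    have h1 := (hlim.sub_const E).norm
    rw [sub_self, norm_zero] at h1
    exact h1.eventually_lt_const (by positivity)
  have hev2 : ∀ᶠ a : ℕ × (ι → ℝ) in atTop ×ˢ 𝓝 x₀, (F a.2 : ℂ) ≠ 0 :=
    hFt.eventually_ne hF0c
  obtain ⟨Nm, hNm, Ux, hUx, hprod⟩ := Filter.eventually_prod_iff.1 (hev1.and hev2)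
  obtain ⟨m₁, hm₁⟩ := Filter.eventually_atTop.1 hNm
  obtain ⟨r, hr, hball⟩ := Metric.eventually_nhds_iff_ball.1 hUx
  obtain ⟨θ, q, hθ0, hθ1, hq0, hqM, hgap⟩ := h.gap (Metric.ball_mem_nhds x₀ hr)
  set M : ℝ := |F x₀| * Real.exp (-S x₀) with hM
  obtain ⟨B, hB, hBb⟩ := pow_le_exp (d - 1)
  set q' : ℝ := (q + M) / 2 with hq'
  set q₃ : ℝ := (q' + M) / 2 with hq₃
  have hq'0 : 0 < q' := by linarith
  have hq'3 : q' < q₃ := by linarith
  have hq3M : q₃ < M := by linarith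
  have hκ := h.near hq3M hr
  set κ : ℝ := (om ι (Metric.ball x₀ r ∩ {x | q₃ < |F x| * Real.exp (-S x)})).toReal with hκd
  -- the tail integral
  have hint : Integrable (fun x : ι → ℝ => Real.exp (-(θ * S x))) (om ι) := by
    have := integrable_monomial (ι := ι) (fun _ => 0) hθ0
    simpa [S] using this
  set T : ℝ := ∫ x : ι → ℝ, Real.exp (-(θ * S x)) ∂(om ι) with hT
  -- choice of `m₀`
  have hev3 : ∀ᶠ m : ℕ in atTop, cn g / m * B ≤ (M - q) / 2 := by
    have h1 : Tendsto (fun m : ℕ => cn g / (m : ℝ) * B) atTop (𝓝 (0 * B)) :=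
      (tendsto_const_div_atTop_nhds_zero_nat (cn g)).mul_const B
    rw [zero_mul] at h1
    exact (h1.eventually_lt_const (by linarith : (0 : ℝ) < (M - q) / 2)).mono
      fun _ h => h.le
  have hev4 : ∀ᶠ m : ℕ in atTop, q' ^ m * T < ‖E‖ / 2 * (q₃ ^ m * κ) := by
    have hrat : 1 < q₃ / q' := by rwa [one_lt_div hq'0]
    have h1 := tendsto_pow_atTop_atTop_of_one_lt hrat
    have h2 := h1.eventually_gt_atTop (T / (‖E‖ / 2 * κ))
    filter_upwards [h2] with m hm
    rw [div_pow, div_lt_div_iff₀ (by positivity) (by positivity)] at hm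
    calc q' ^ m * T = T * q' ^ m := mul_comm _ _
      _ < q₃ ^ m * (‖E‖ / 2 * κ) := hm
      _ = ‖E‖ / 2 * (q₃ ^ m * κ) := by ring
  obtain ⟨m₂, hm₂⟩ := Filter.eventually_atTop.1 (hev3.and hev4)
  refine ⟨max (max m₁ m₂) 1, ?_⟩
  intro m hmm hme
  have hmm1 : m₁ ≤ m := (le_max_left _ _).trans ((le_max_left _ _).trans hmm)
  have hmm2 : m₂ ≤ m := (le_max_right _ _).trans ((le_max_left _ _).trans hmm)
  have hm1 : 1 ≤ m := (le_max_right _ _).trans hmm
  have hmR : (0 : ℝ) < m := by exact_mod_cast hm1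
  obtain ⟨hc3, hc4⟩ := hm₂ m hmm2
  have hmc : (m : ℂ) ≠ 0 := by exact_mod_cast (by omega : m ≠ 0)
  -- the integrand
  set Gm : (ι → ℝ) → ℂ := fun x =>
    ((F x : ℂ) + hm d g m x) ^ m * ((Real.exp (-(m * S x)) : ℝ) : ℂ) with hGm
  have hfac : ∀ x : ι → ℝ, eval (pt m x) ((P + g) ^ m) * ((Real.exp (-(m * ∑ i, x i)) : ℝ) : ℂ) =
      ((m : ℂ) ^ d) ^ m * Gm x := by
    intro x
    have h1 : eval (pt m x) g = (m : ℂ) ^ d * hm d g m x := by
      rw [hm]
      field_simp
    rw [map_pow, map_add, hP, h1, ← mul_add, mul_pow, hGm]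
    simp only [S]
    ring
  have hGint : Integrable Gm (om ι) := by
    have h1 := integrable_eval ((P + g) ^ m) (m : ℝ) hmR
    have h2 : (fun x : ι → ℝ => eval (pt m x) ((P + g) ^ m) *
        ((Real.exp (-(m * ∑ i, x i)) : ℝ) : ℂ)) = fun x => ((m : ℂ) ^ d) ^ m * Gm x :=
      funext hfac
    rw [h2] at h1
    have h3 := h1.const_mul ((((m : ℂ) ^ d) ^ m)⁻¹)
    refine h3.congr (Filter.Eventually.of_forall fun x => ?_)
    have : ((m : ℂ) ^ d) ^ m ≠ 0 := pow_ne_zero _ (pow_ne_zero _ hmc)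
    simp only
    field_simp
  have hIne : (∫ x : ι → ℝ, Gm x ∂(om ι)) ≠ 0 → LL ((P + g) ^ m) ≠ 0 := by
    intro hne h0
    have h1 := integral_eval ((P + g) ^ m) hmR
    simp only [hfac] at h1
    rw [integral_const_mul, h0, zero_mul] at h1
    rcases mul_eq_zero.1 h1 with h2 | h2
    · exact (pow_ne_zero _ (pow_ne_zero _ hmc)) h2
    · exact hne h2
  apply hIne
  intro hzero
  -- split the integral
  have hsplit := integral_add_compl (s := Metric.ball x₀ r) Metric.isOpen_ball.measurableSet hGint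
  rw [hzero] at hsplit
  have hae : ∀ᵐ x ∂(om ι), ∀ i, 0 < x i := by
    rw [om_eq]
    filter_upwards [ae_restrict_mem measurableSet_orth] with x hx
    exact mem_orth.1 hx
  -- the outer part
  have hout : ‖∫ x in (Metric.ball x₀ r)ᶜ, Gm x ∂(om ι)‖ ≤ q' ^ m * T := by
    have hb : ∀ᵐ x ∂((om ι).restrict (Metric.ball x₀ r)ᶜ), ‖Gm x‖ ≤
        q' ^ m * Real.exp (-(θ * S x)) := by
      have h1 : ∀ᵐ x ∂((om ι).restrict (Metric.ball x₀ r)ᶜ), x ∈ (Metric.ball x₀ r)ᶜ :=
        ae_restrict_mem Metric.isOpen_ball.measurableSet.compl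
      filter_upwards [h1, ae_restrict_of_ae hae] with x hx1 hx2
      have hx0 : ∀ i, 0 ≤ x i := fun i => (hx2 i).le
      have hS := S_nonneg hx0
      have hA := hgap x hx0 hx1
      have hh := hm_bound hg hm1 hx0
      have hbase : (|F x| + ‖hm d g m x‖) * Real.exp (-((1 - θ) * S x)) ≤ q' := by
        have h3 : ‖hm d g m x‖ * Real.exp (-((1 - θ) * S x)) ≤ (M - q) / 2 := by
          have h4 : Real.exp (-((1 - θ) * S x)) ≤ Real.exp (-(S x / 2)) := by
            apply Real.exp_le_exp.2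
            nlinarith
          have hcn : 0 ≤ cn g / m := div_nonneg (cn_nonneg g) hmR.le
          calc ‖hm d g m x‖ * Real.exp (-((1 - θ) * S x))
              ≤ (cn g / m * (1 + S x) ^ (d - 1)) * Real.exp (-(S x / 2)) :=
                mul_le_mul hh h4 (Real.exp_pos _).le (by positivity)
            _ = cn g / m * ((1 + S x) ^ (d - 1) * Real.exp (-(S x / 2))) := by ring
            _ ≤ cn g / m * B := mul_le_mul_of_nonneg_left (hBb (S x) hS) hcn
            _ ≤ (M - q) / 2 := hc3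
        rw [add_mul]
        linarith
      have hexp : Real.exp (-(m * S x)) = Real.exp (-((1 - θ) * S x)) ^ m *
          Real.exp (-(θ * S x)) ^ m := by
        rw [← mul_pow, ← Real.exp_add, ← Real.exp_nat_mul]
        congr 1
        ring
      have hn : ‖Gm x‖ = ‖(F x : ℂ) + hm d g m x‖ ^ m * Real.exp (-(m * S x)) := by
        rw [hGm]
        simp only
        rw [norm_mul, norm_pow, Complex.norm_real, Real.norm_eq_abs, abs_of_pos (Real.exp_pos _)]
      rw [hn, hexp, ← mul_assoc, ← mul_pow]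
      refine mul_le_mul ?_ ?_ (by positivity) (by positivity)
      · refine pow_le_pow_left₀ (by positivity) ?_ m
        refine le_trans ?_ hbase
        refine mul_le_mul_of_nonneg_right ?_ (Real.exp_pos _).le
        refine (norm_add_le _ _).trans ?_
        rw [Complex.norm_real, Real.norm_eq_abs]
      · have h5 : Real.exp (-(θ * S x)) ≤ 1 := by
          rw [Real.exp_le_one_iff]
          nlinarith
        calc Real.exp (-(θ * S x)) ^ m ≤ Real.exp (-(θ * S x)) ^ 1 :=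
              pow_le_pow_of_le_one (Real.exp_pos _).le h5 hm1
          _ = Real.exp (-(θ * S x)) := pow_one _
    refine (norm_integral_le_of_norm_le (hint.restrict.const_mul (q' ^ m)) hb).trans ?_
    rw [integral_const_mul]
    refine mul_le_mul_of_nonneg_left ?_ (by positivity)
    exact setIntegral_le_integral hint (Filter.Eventually.of_forall fun x => (Real.exp_pos _).le)
  -- the inner part
  set Im : ℝ := ∫ x in Metric.ball x₀ r, F x ^ m * Real.exp (-(m * S x)) ∂(om ι) with hIm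
  have hFint : Integrable (fun x : ι → ℝ => F x ^ m * Real.exp (-(m * S x))) (om ι) := by
    have h1 := integrable_eval (P ^ m) (m : ℝ) hmR
    have h2 : (fun x : ι → ℝ => eval (pt m x) (P ^ m) *
        ((Real.exp (-(m * ∑ i, x i)) : ℝ) : ℂ)) =
        fun x => (((m : ℂ) ^ d) ^ m) * ((F x ^ m * Real.exp (-(m * S x)) : ℝ) : ℂ) := by
      funext x
      rw [map_pow, hP, mul_pow]
      simp only [S]
      push_cast
      ring
    rw [h2] at h1
    have h3 := h1.const_mul ((((m : ℂ) ^ d) ^ m)⁻¹)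
    have h4 : Integrable (fun x : ι → ℝ => ((F x ^ m * Real.exp (-(m * S x)) : ℝ) : ℂ))
        (om ι) := by
      refine h3.congr (Filter.Eventually.of_forall fun x => ?_)
      have : ((m : ℂ) ^ d) ^ m ≠ 0 := pow_ne_zero _ (pow_ne_zero _ hmc)
      simp only
      field_simp
    exact h4.re
  have hFm : ∀ x, 0 ≤ F x ^ m := fun x => hme.pow_nonneg (F x)
  have hImlow : q₃ ^ m * κ ≤ Im := by
    have h1 : ∫ x in Metric.ball x₀ r ∩ {x | q₃ < |F x| * Real.exp (-S x)},
        F x ^ m * Real.exp (-(m * S x)) ∂(om ι) ≤ Im := by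
      rw [hIm]
      refine setIntegral_mono_set hFint.integrableOn ?_ ?_
      · exact Filter.Eventually.of_forall fun x => mul_nonneg (hFm x) (Real.exp_pos _).le
      · exact Filter.Eventually.of_forall fun x hx => hx.1
    refine le_trans ?_ h1
    have hVm : MeasurableSet (Metric.ball x₀ r ∩ {x | q₃ < |F x| * Real.exp (-S x)}) := by
      apply IsOpen.measurableSet
      refine Metric.isOpen_ball.inter (isOpen_lt continuous_const ?_)
      exact h.cont.mul (Real.continuous_exp.comp continuous_S.neg)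
    have hVfin : om ι (Metric.ball x₀ r ∩ {x | q₃ < |F x| * Real.exp (-S x)}) ≠ ⊤ := by
      intro htop
      rw [hκd, htop] at hκ
      simp at hκ
    have h2 : q₃ ^ m * κ = ∫ x in Metric.ball x₀ r ∩ {x | q₃ < |F x| * Real.exp (-S x)},
        q₃ ^ m ∂(om ι) := by
      rw [setIntegral_const, smul_eq_mul, mul_comm]
      rfl
    rw [h2]
    refine setIntegral_mono_on ?_ hFint.integrableOn hVm ?_
    · exact integrableOn_const hVfin
    · intro x hx
      have h3 : F x ^ m * Real.exp (-(m * S x)) = (|F x| * Real.exp (-S x)) ^ m := by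
        rw [mul_pow, ← Real.exp_nat_mul, hme.pow_abs]
        congr 2
        ring
      rw [h3]
      exact pow_le_pow_left₀ (by linarith) hx.2.le m
  have hin : ‖E‖ / 2 * Im ≤ ‖∫ x in Metric.ball x₀ r, Gm x ∂(om ι)‖ := by
    have h1 : ∫ x in Metric.ball x₀ r, Gm x ∂(om ι) = E * (Im : ℂ) +
        ∫ x in Metric.ball x₀ r, (Gm x - E * ((F x ^ m * Real.exp (-(m * S x)) : ℝ) : ℂ))
          ∂(om ι) := by
      have hRint : Integrable (fun x : ι → ℝ =>
          E * ((F x ^ m * Real.exp (-(m * S x)) : ℝ) : ℂ)) (om ι) := hFint.ofReal.const_mul E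
      have hs : ∫ x in Metric.ball x₀ r,
          (Gm x - E * ((F x ^ m * Real.exp (-(m * S x)) : ℝ) : ℂ)) ∂(om ι) =
          (∫ x in Metric.ball x₀ r, Gm x ∂(om ι)) - ∫ x in Metric.ball x₀ r,
            E * ((F x ^ m * Real.exp (-(m * S x)) : ℝ) : ℂ) ∂(om ι) :=
        integral_sub hGint.integrableOn hRint.integrableOn
      rw [hs, integral_const_mul, integral_complex_ofReal]
      ring
    have h2 : ‖∫ x in Metric.ball x₀ r,
        (Gm x - E * ((F x ^ m * Real.exp (-(m * S x)) : ℝ) : ℂ)) ∂(om ι)‖ ≤ ‖E‖ / 2 * Im := by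
      rw [hIm, ← integral_const_mul]
      refine norm_integral_le_of_norm_le (hFint.integrableOn.const_mul _) ?_
      filter_upwards [ae_restrict_mem Metric.isOpen_ball.measurableSet] with x hx
      obtain ⟨h3, h4⟩ := hprod (hm₁ m hmm1) (hball x hx)
      simp only at h3 h4
      have h5 : Gm x - E * ((F x ^ m * Real.exp (-(m * S x)) : ℝ) : ℂ) =
          ((1 + hm d g m x / (F x : ℂ)) ^ m - E) *
            ((F x ^ m * Real.exp (-(m * S x)) : ℝ) : ℂ) := by
        rw [hGm]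
        simp only
        have h6 : (F x : ℂ) + hm d g m x = (1 + hm d g m x / (F x : ℂ)) * (F x : ℂ) := by
          field_simp
        rw [h6, mul_pow]
        push_cast
        ring
      rw [h5, norm_mul, Complex.norm_real, Real.norm_eq_abs,
        abs_of_nonneg (mul_nonneg (hFm x) (Real.exp_pos _).le)]
      exact mul_le_mul_of_nonneg_right h3.le (mul_nonneg (hFm x) (Real.exp_pos _).le)
    have hIm0 : 0 ≤ Im := le_trans (by positivity) hImlow
    have h7 : ‖E * (Im : ℂ)‖ = ‖E‖ * Im := by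
      rw [norm_mul, Complex.norm_real, Real.norm_eq_abs, abs_of_nonneg hIm0]
    have h8 := norm_sub_norm_le (E * (Im : ℂ)) (-∫ x in Metric.ball x₀ r,
        (Gm x - E * ((F x ^ m * Real.exp (-(m * S x)) : ℝ) : ℂ)) ∂(om ι))
    rw [norm_neg, sub_neg_eq_add, ← h1, h7] at h8
    linarith
  -- conclusion
  have h9 : ‖∫ x in Metric.ball x₀ r, Gm x ∂(om ι)‖ =
      ‖∫ x in (Metric.ball x₀ r)ᶜ, Gm x ∂(om ι)‖ := by
    have : ∫ x in Metric.ball x₀ r, Gm x ∂(om ι) =
        -∫ x in (Metric.ball x₀ r)ᶜ, Gm x ∂(om ι) := by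
      linear_combination hsplit
    rw [this, norm_neg]
  have h10 : ‖E‖ / 2 * (q₃ ^ m * κ) ≤ ‖E‖ / 2 * Im :=
    mul_le_mul_of_nonneg_left hImlow (by positivity)
  linarith

end Pool.Agent.MP_410f3c_al.G
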