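import Pool.Agent.MP_410f3c_al.G.Lap

/-!
# Generic leading forms: for almost every real coefficient vector the maximum point is unique

`M c = max |F_c| exp (-S)` is a Lipschitz function of the coefficient vector `c`, hence
differentiable almost everywhere. At a point of differentiability all maximum points `y` have the
same vector `v_a(y) = y^a exp (-S y)`; by strict concavity (geometric means) there is only one.
-/

set_option autoImplicit false
set_option linter.unusedSectionVars false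

open MvPolynomial MeasureTheory Filter Topology

namespace Pool.Agent.MP_410f3c_al.G

variable {ι : Type} [Fintype ι]

/-- the form with support in `A` and coefficients `c` -/
noncomputable def FF (A : Finset (ι →₀ ℕ)) (c : A → ℝ) (x : ι → ℝ) : ℝ :=
  ∑ a : A, c a * ∏ i, x i ^ (a.1 i)

/-- `x^a exp (-S x)` -/
noncomputable def vv (a : ι →₀ ℕ) (x : ι → ℝ) : ℝ := (∏ i, x i ^ (a i)) * Real.exp (-S x)

/-- `F_c exp (-S)` -/
noncomputable def qq (A : Finset (ι →₀ ℕ)) (c : A → ℝ) (x : ι → ℝ) : ℝ := ∑ a : A, c a * vv a.1 x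

theorem qq_eq (A : Finset (ι →₀ ℕ)) (c : A → ℝ) (x : ι → ℝ) :
    qq A c x = FF A c x * Real.exp (-S x) := by
  rw [qq, FF, Finset.sum_mul]
  exact Finset.sum_congr rfl fun a _ => by rw [vv]; ring

theorem vv_nonneg (a : ι →₀ ℕ) {x : ι → ℝ} (hx : ∀ i, 0 ≤ x i) : 0 ≤ vv a x :=
  mul_nonneg (Finset.prod_nonneg fun i _ => pow_nonneg (hx i) _) (Real.exp_pos _).le

theorem continuous_FF (A : Finset (ι →₀ ℕ)) (c : A → ℝ) : Continuous (FF A c) := by
  unfold FF
  fun_prop

variable {A : Finset (ι →₀ ℕ)} {d : ℕ}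

theorem FF_growth (hA : ∀ a ∈ A, ∑ i, a i = d) (c : A → ℝ) {x : ι → ℝ} (hx : ∀ i, 0 ≤ x i) :
    |FF A c x| ≤ (∑ a : A, |c a|) * (1 + S x) ^ d := by
  rw [FF, Finset.sum_mul]
  refine (Finset.abs_sum_le_sum_abs _ _).trans (Finset.sum_le_sum fun a _ => ?_)
  rw [abs_mul]
  refine mul_le_mul_of_nonneg_left ?_ (abs_nonneg _)
  have := monomial_bound a.1 (hA a.1 a.2).le le_rfl hx
  simpa using this

theorem exists_vv_bound (hA : ∀ a ∈ A, ∑ i, a i = d) : ∃ K : ℝ, 0 ≤ K ∧
    ∀ (c : A → ℝ) (x : ι → ℝ), (∀ i, 0 ≤ x i) → |qq A c x| ≤ K * ‖c‖ := by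
  obtain ⟨B, hB, hb⟩ := pow_le_exp d
  refine ⟨Fintype.card A * B, by positivity, ?_⟩
  intro c x hx
  have hS := S_nonneg hx
  rw [qq_eq, abs_mul, abs_of_pos (Real.exp_pos _)]
  have h1 : ∑ a : A, |c a| ≤ Fintype.card A * ‖c‖ := by
    calc ∑ a : A, |c a| ≤ ∑ _a : A, ‖c‖ := Finset.sum_le_sum fun a _ => norm_le_pi_norm c a
      _ = Fintype.card A * ‖c‖ := by simp
  have h2 : (1 + S x) ^ d * Real.exp (-S x) ≤ B := by
    refine le_trans ?_ (hb (S x) hS)
    refine mul_le_mul_of_nonneg_left ?_ (by positivity)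
    apply Real.exp_le_exp.2
    linarith
  calc |FF A c x| * Real.exp (-S x)
      ≤ ((∑ a : A, |c a|) * (1 + S x) ^ d) * Real.exp (-S x) :=
        mul_le_mul_of_nonneg_right (FF_growth hA c hx) (Real.exp_pos _).le
    _ = (∑ a : A, |c a|) * ((1 + S x) ^ d * Real.exp (-S x)) := by ring
    _ ≤ (Fintype.card A * ‖c‖) * B := mul_le_mul h1 h2 (by positivity) (by positivity)
    _ = Fintype.card A * B * ‖c‖ := by ring

/-- the closed orthant -/
def Dom (ι : Type) : Type := {x : ι → ℝ // ∀ i, 0 ≤ x i}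

instance : Nonempty (Dom ι) := ⟨⟨0, fun _ => le_rfl⟩⟩

/-- the maximum -/
noncomputable def MM (A : Finset (ι →₀ ℕ)) (c : A → ℝ) : ℝ := ⨆ x : Dom ι, |qq A c x.1|

theorem bdd (hA : ∀ a ∈ A, ∑ i, a i = d) (c : A → ℝ) :
    BddAbove (Set.range fun x : Dom ι => |qq A c x.1|) := by
  obtain ⟨K, -, hK⟩ := exists_vv_bound hA
  refine ⟨K * ‖c‖, ?_⟩
  rintro _ ⟨x, rfl⟩
  exact hK c x.1 x.2

theorem le_MM (hA : ∀ a ∈ A, ∑ i, a i = d) (c : A → ℝ) {x : ι → ℝ} (hx : ∀ i, 0 ≤ x i) :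
    |qq A c x| ≤ MM A c :=
  le_ciSup (bdd hA c) (⟨x, hx⟩ : Dom ι)

theorem qq_sub (c c' : A → ℝ) (x : ι → ℝ) : qq A c x = qq A c' x + qq A (c - c') x := by
  simp only [qq, ← Finset.sum_add_distrib]
  exact Finset.sum_congr rfl fun a _ => by simp only [Pi.sub_apply]; ring

theorem lip (hA : ∀ a ∈ A, ∑ i, a i = d) : ∃ K : NNReal, LipschitzWith K (MM A) := by
  obtain ⟨K, hK0, hK⟩ := exists_vv_bound hA
  refine ⟨⟨K, hK0⟩, LipschitzWith.of_le_add_mul _ ?_⟩
  intro c c'
  refine ciSup_le fun x => ?_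
  rw [qq_sub c c']
  refine (abs_add_le _ _).trans (add_le_add (le_MM hA c' x.2) ?_)
  have := hK (c - c') x.1 x.2
  rw [dist_eq_norm]
  exact this

/-- existence of a maximum point -/
theorem exists_max (hA : ∀ a ∈ A, ∑ i, a i = d) (c : A → ℝ) {x₁ : ι → ℝ} (hx₁ : ∀ i, 0 ≤ x₁ i)
    (hne : FF A c x₁ ≠ 0) : ∃ y : ι → ℝ, (∀ i, 0 ≤ y i) ∧ 0 < |qq A c y| ∧
      ∀ x : ι → ℝ, (∀ i, 0 ≤ x i) → |qq A c x| ≤ |qq A c y| := by
  have hcont : Continuous fun x : ι → ℝ => |qq A c x| := by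
    have : (fun x : ι → ℝ => |qq A c x|) = fun x => |FF A c x * Real.exp (-S x)| := by
      funext x
      rw [qq_eq]
    rw [this]
    exact ((continuous_FF A c).mul (Real.continuous_exp.comp continuous_S.neg)).abs
  have hp : 0 < |qq A c x₁| := by
    rw [qq_eq, abs_pos]
    exact mul_ne_zero hne (Real.exp_pos _).ne'
  set C : ℝ := ∑ a : A, |c a| with hC
  have hC0 : 0 ≤ C := Finset.sum_nonneg fun _ _ => abs_nonneg _
  obtain ⟨R, hR, hRs⟩ := pow_exp_small d (ε := |qq A c x₁| / 2 / (C + 1)) (by positivity)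
  have hout : ∀ x : ι → ℝ, (∀ i, 0 ≤ x i) → R ≤ S x → |qq A c x| ≤ |qq A c x₁| / 2 := by
    intro x hx hRx
    have hS := S_nonneg hx
    rw [qq_eq, abs_mul, abs_of_pos (Real.exp_pos _)]
    have h1 := FF_growth hA c hx
    have h2 := hRs (S x) hRx
    have h3 : Real.exp (-S x) ≤ Real.exp (-(S x / 2)) := by
      apply Real.exp_le_exp.2
      linarith
    have h4 : (1 + S x) ^ d * Real.exp (-S x) ≤ |qq A c x₁| / 2 / (C + 1) :=
      le_trans (mul_le_mul_of_nonneg_left h3 (by positivity)) h2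
    calc |FF A c x| * Real.exp (-S x)
        ≤ (C * (1 + S x) ^ d) * Real.exp (-S x) :=
          mul_le_mul_of_nonneg_right h1 (Real.exp_pos _).le
      _ = C * ((1 + S x) ^ d * Real.exp (-S x)) := by ring
      _ ≤ (C + 1) * ((1 + S x) ^ d * Real.exp (-S x)) :=
          mul_le_mul_of_nonneg_right (by linarith) (by positivity)
      _ ≤ (C + 1) * (|qq A c x₁| / 2 / (C + 1)) := mul_le_mul_of_nonneg_left h4 (by positivity)
      _ = |qq A c x₁| / 2 := by field_simp
  have hKc : IsCompact {x : ι → ℝ | (∀ i, 0 ≤ x i) ∧ S x ≤ R} := by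
    have hsub : {x : ι → ℝ | (∀ i, 0 ≤ x i) ∧ S x ≤ R} ⊆ Set.Icc (0 : ι → ℝ) (fun _ => R) := by
      intro x hx
      exact ⟨fun i => hx.1 i, fun i => (le_S hx.1 i).trans hx.2⟩
    refine isCompact_Icc.of_isClosed_subset ?_ hsub
    have h1 : IsClosed {x : ι → ℝ | ∀ i, 0 ≤ x i} := by
      rw [Set.ofPred_forall]
      exact isClosed_iInter fun i => isClosed_le continuous_const (continuous_apply i)
    exact h1.inter (isClosed_le continuous_S continuous_const)
  have hx₁K : x₁ ∈ {x : ι → ℝ | (∀ i, 0 ≤ x i) ∧ S x ≤ R} := by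
    refine ⟨hx₁, ?_⟩
    by_contra hcon
    push Not at hcon
    have := hout x₁ hx₁ hcon.le
    linarith
  obtain ⟨y, hy, hmax⟩ := hKc.exists_isMaxOn ⟨x₁, hx₁K⟩ hcont.continuousOn
  have hy1 : |qq A c x₁| ≤ |qq A c y| := hmax hx₁K
  refine ⟨y, hy.1, lt_of_lt_of_le hp hy1, ?_⟩
  intro x hx
  by_cases hxR : S x ≤ R
  · exact hmax ⟨hx, hxR⟩
  · push Not at hxR
    have := hout x hx hxR.le
    linarith

open Classical in
/-- the basis vector -/
noncomputable def es (A : Finset (ι →₀ ℕ)) (a : A) : A → ℝ := fun b => if b = a then 1 else 0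

/-- at a point of differentiability of the maximum the derivative is given by any maximum point -/
theorem fderiv_MM (hA : ∀ a ∈ A, ∑ i, a i = d) {c : A → ℝ} (hd : DifferentiableAt ℝ (MM A) c)
    {y : ι → ℝ} (hy : ∀ i, 0 ≤ y i) (hmax : ∀ x : ι → ℝ, (∀ i, 0 ≤ x i) → |qq A c x| ≤ |qq A c y|)
    (a : A) : fderiv ℝ (MM A) c (es A a) =
      ((SignType.sign (qq A c y) : SignType) : ℝ) * vv a.1 y := by
  have hMc : MM A c = |qq A c y| :=
    le_antisymm (ciSup_le fun x => hmax x.1 x.2) (le_MM hA c hy)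
  -- restrict to the line `c + t e_a`
  set σ : ℝ := ((SignType.sign (qq A c y) : SignType) : ℝ) with hσ
  have hlin : ∀ t : ℝ, qq A (c + t • es A a) y = qq A c y + t * vv a.1 y := by
    intro t
    have h1 : qq A (c + t • es A a) y =
        qq A c y + qq A (t • es A a) y := by
      simp only [qq, ← Finset.sum_add_distrib]
      exact Finset.sum_congr rfl fun b _ => by simp only [Pi.add_apply]; ring
    rw [h1]
    congr 1
    rw [qq, Finset.sum_eq_single a]
    · simp [es]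
    · intro b _ hb
      simp [es, hb]
    · intro h
      exact absurd (Finset.mem_univ a) h
  have hσ1 : |σ| ≤ 1 := by
    rw [hσ]
    rcases lt_trichotomy (qq A c y) 0 with h | h | h
    · simp [sign_neg h]
    · simp [h]
    · simp [sign_pos h]
  have hσq : σ * qq A c y = |qq A c y| := by
    rw [hσ]
    exact sign_mul_self _
  have hmin : ∀ t : ℝ, 0 ≤ MM A (c + t • es A a) -
      σ * qq A (c + t • es A a) y := by
    intro t
    have h1 := le_MM hA (c + t • es A a) hy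
    have h2 : σ * qq A (c + t • es A a) y ≤
        |qq A (c + t • es A a) y| := by
      refine (le_abs_self _).trans ?_
      rw [abs_mul]
      have := abs_nonneg (qq A (c + t • es A a) y)
      nlinarith
    linarith
  have hder : HasDerivAt (fun t : ℝ => MM A (c + t • es A a) -
      σ * qq A (c + t • es A a) y)
      (fderiv ℝ (MM A) c (es A a) - σ * vv a.1 y) 0 := by
    have h1 : HasDerivAt (fun t : ℝ => c + t • es A a)
        (es A a) 0 := by
      have := ((hasDerivAt_id (0 : ℝ)).smul_const (es A a)).const_add c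
      simpa using this
    have h2 : HasFDerivAt (MM A) (fderiv ℝ (MM A) c)
        ((fun t : ℝ => c + t • es A a) 0) := by
      simpa using hd.hasFDerivAt
    have h3 := h2.comp_hasDerivAt (0 : ℝ) h1
    have h4 : HasDerivAt (fun t : ℝ => σ * qq A (c + t • es A a) y)
        (σ * vv a.1 y) 0 := by
      simp only [hlin]
      have := (((hasDerivAt_id (0 : ℝ)).mul_const (vv a.1 y)).const_add (qq A c y)).const_mul σ
      simpa using this
    exact h3.sub h4
  have hloc : IsLocalMin (fun t : ℝ => MM A (c + t • es A a) -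
      σ * qq A (c + t • es A a) y) 0 := by
    refine Filter.Eventually.of_forall fun t => ?_
    have h0 : MM A (c + (0 : ℝ) • es A a) -
        σ * qq A (c + (0 : ℝ) • es A a) y = 0 := by
      rw [zero_smul, add_zero, hMc, hσq, sub_self]
    simp only [h0]
    exact hmin t
  exact sub_eq_zero.1 (hloc.hasDerivAt_eq_zero hder)

/-- the coordinatewise geometric mean -/
noncomputable def gm (y z : ι → ℝ) : ι → ℝ := fun i => Real.sqrt (y i) * Real.sqrt (z i)

theorem gm_nonneg (y z : ι → ℝ) (i : ι) : 0 ≤ gm y z i :=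
  mul_nonneg (Real.sqrt_nonneg _) (Real.sqrt_nonneg _)

theorem vv_gm (a : ι →₀ ℕ) {y z : ι → ℝ} (hy : ∀ i, 0 ≤ y i) (hz : ∀ i, 0 ≤ z i)
    (h : vv a y = vv a z) :
    vv a (gm y z) = vv a y * Real.exp ((∑ i, (Real.sqrt (y i) - Real.sqrt (z i)) ^ 2) / 2) := by
  have hn1 : 0 ≤ vv a (gm y z) := vv_nonneg a (gm_nonneg y z)
  have hn2 : 0 ≤ vv a y * Real.exp ((∑ i, (Real.sqrt (y i) - Real.sqrt (z i)) ^ 2) / 2) :=
    mul_nonneg (vv_nonneg a hy) (Real.exp_pos _).le
  refine (sq_eq_sq₀ hn1 hn2).1 ?_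
  have h1 : (vv a y) ^ 2 = vv a y * vv a z := by rw [← h, sq]
  rw [mul_pow, h1]
  simp only [vv, mul_pow, ← Real.exp_nat_mul, ← Finset.prod_pow]
  have h2 : ∏ i, (gm y z i ^ a i) ^ 2 = (∏ i, y i ^ a i) * ∏ i, z i ^ a i := by
    rw [← Finset.prod_mul_distrib]
    refine Finset.prod_congr rfl fun i _ => ?_
    rw [← pow_mul, mul_comm (a i) 2, pow_mul, gm, mul_pow, Real.sq_sqrt (hy i),
      Real.sq_sqrt (hz i), mul_pow]
  have h3 : ∑ i, (Real.sqrt (y i) - Real.sqrt (z i)) ^ 2 = S y + S z - 2 * S (gm y z) := by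
    simp only [S, Finset.mul_sum, ← Finset.sum_add_distrib, ← Finset.sum_sub_distrib]
    refine Finset.sum_congr rfl fun i _ => ?_
    rw [gm, sub_sq, Real.sq_sqrt (hy i), Real.sq_sqrt (hz i)]
    ring
  rw [h2, h3]
  have h4 : Real.exp (((2 : ℕ) : ℝ) * -S (gm y z)) = Real.exp (-S y) * Real.exp (-S z) *
      Real.exp (((2 : ℕ) : ℝ) * ((S y + S z - 2 * S (gm y z)) / 2)) := by
    rw [← Real.exp_add, ← Real.exp_add]
    congr 1
    push_cast
    ring
  rw [h4]
  ring

/-- uniqueness of the maximum point at points of differentiability -/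
theorem max_unique (hA : ∀ a ∈ A, ∑ i, a i = d) {c : A → ℝ} (hd : DifferentiableAt ℝ (MM A) c)
    {y z : ι → ℝ} (hy : ∀ i, 0 ≤ y i) (hz : ∀ i, 0 ≤ z i) (hp : 0 < |qq A c y|)
    (hmaxy : ∀ x : ι → ℝ, (∀ i, 0 ≤ x i) → |qq A c x| ≤ |qq A c y|)
    (hmaxz : ∀ x : ι → ℝ, (∀ i, 0 ≤ x i) → |qq A c x| ≤ |qq A c z|) : y = z := by
  have hyz : |qq A c y| = |qq A c z| := le_antisymm (hmaxz y hy) (hmaxy z hz)
  have hv : ∀ a : A, vv a.1 y = vv a.1 z := by
    intro a
    have h1 := fderiv_MM hA hd hy hmaxy a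
    have h2 := fderiv_MM hA hd hz hmaxz a
    rw [h1] at h2
    have h3 := vv_nonneg a.1 hy
    have h4 := vv_nonneg a.1 hz
    have hqy : qq A c y ≠ 0 := abs_pos.1 hp
    have hqz : qq A c z ≠ 0 := by
      rw [hyz] at hp
      exact abs_pos.1 hp
    rcases lt_or_gt_of_ne hqy with h | h <;> rcases lt_or_gt_of_ne hqz with h' | h' <;>
      simp only [sign_neg, sign_pos, h, h', SignType.coe_one, SignType.coe_neg_one] at h2 <;>
      linarith
  have hq : qq A c (gm y z) = qq A c y *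
      Real.exp ((∑ i, (Real.sqrt (y i) - Real.sqrt (z i)) ^ 2) / 2) := by
    simp only [qq, Finset.sum_mul]
    refine Finset.sum_congr rfl fun a _ => ?_
    rw [vv_gm a.1 hy hz (hv a)]
    ring
  have h5 := hmaxy (gm y z) (gm_nonneg y z)
  rw [hq, abs_mul, abs_of_pos (Real.exp_pos _)] at h5
  have h6 : Real.exp ((∑ i, (Real.sqrt (y i) - Real.sqrt (z i)) ^ 2) / 2) ≤ 1 := by
    by_contra hcon
    push Not at hcon
    nlinarith
  rw [Real.exp_le_one_iff] at h6
  have h7 : ∑ i, (Real.sqrt (y i) - Real.sqrt (z i)) ^ 2 = 0 :=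
    le_antisymm (by linarith) (Finset.sum_nonneg fun i _ => sq_nonneg _)
  funext i
  have h8 := (Finset.sum_eq_zero_iff_of_nonneg fun i _ => sq_nonneg _).1 h7 i (Finset.mem_univ i)
  have h9 : Real.sqrt (y i) = Real.sqrt (z i) := by
    have := pow_eq_zero_iff (two_ne_zero) |>.1 h8
    linarith
  calc y i = Real.sqrt (y i) ^ 2 := (Real.sq_sqrt (hy i)).symm
    _ = Real.sqrt (z i) ^ 2 := by rw [h9]
    _ = z i := Real.sq_sqrt (hz i)

/-- a nonzero form does not vanish on the whole orthant -/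
theorem exists_FF_ne {c : A → ℝ} (hc : c ≠ 0) : ∃ x : ι → ℝ, (∀ i, 0 ≤ x i) ∧ FF A c x ≠ 0 := by
  classical
  by_contra hcon
  push Not at hcon
  apply hc
  have hp : (∑ a : A, monomial a.1 (c a) : MvPolynomial ι ℝ) = 0 := by
    refine funext_set (fun _ => Set.Ioi (0 : ℝ)) (fun _ => Set.Ioi_infinite 0) ?_
    intro x hx
    rw [map_zero, map_sum]
    have h1 := hcon x (fun i => le_of_lt (hx i (Set.mem_univ i)))
    rw [← h1, FF]
    refine Finset.sum_congr rfl fun a _ => ?_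
    rw [eval_monomial, Finsupp.prod_fintype _ _ (fun i => pow_zero _)]
  funext a
  have h2 := congrArg (coeff a.1) hp
  rw [coeff_sum, coeff_zero, Finset.sum_eq_single a] at h2
  · simpa using h2
  · intro b _ hb
    rw [coeff_monomial, if_neg]
    intro h
    exact hb (Subtype.ext h)
  · intro h
    exact absurd (Finset.mem_univ a) h

/-- **Density of the good real coefficient vectors.** -/
theorem good_dense (hA : ∀ a ∈ A, ∑ i, a i = d) (hAn : A.Nonempty) {W : Set (A → ℝ)}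
    (hWo : IsOpen W) (hWn : W.Nonempty) :
    ∃ c ∈ W, ∃ x₀ : ι → ℝ, Mx (fun x => |FF A c x|) x₀ d := by
  classical
  obtain ⟨K, hK⟩ := lip hA
  have hae : ∀ᵐ c : A → ℝ, DifferentiableAt ℝ (MM A) c := hK.ae_differentiableAt
  have hdense := MeasureTheory.Measure.dense_of_ae hae
  have : Nonempty A := hAn.to_subtype
  have h0 : Dense ({0}ᶜ : Set (A → ℝ)) := dense_compl_singleton 0
  obtain ⟨c₀, hc₀W, hc₀⟩ := h0.inter_open_nonempty W hWo hWn
  have hWo' : IsOpen (W ∩ {0}ᶜ) := hWo.inter isOpen_compl_singleton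
  obtain ⟨c, ⟨hcW, hc0⟩, hcd⟩ := hdense.inter_open_nonempty (W ∩ {0}ᶜ) hWo' ⟨c₀, hc₀W, hc₀⟩
  refine ⟨c, hcW, ?_⟩
  obtain ⟨x₁, hx₁, hne⟩ := exists_FF_ne (A := A) (c := c) hc0
  obtain ⟨y, hy, hyp, hmax⟩ := exists_max hA c hx₁ hne
  refine ⟨y, (continuous_FF A c).abs, fun x => abs_nonneg _, ?_, hy, ?_, ?_⟩
  · refine ⟨(∑ a : A, |c a|) + 1, ?_, ?_⟩
    · have : 0 ≤ ∑ a : A, |c a| := Finset.sum_nonneg fun _ _ => abs_nonneg _
      linarith
    · intro x hx
      have hS := S_nonneg hx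
      refine (FF_growth hA c hx).trans ?_
      refine mul_le_mul_of_nonneg_right (by linarith) (by positivity)
  · rw [qq_eq, abs_mul] at hyp
    exact pos_of_mul_pos_left hyp (abs_nonneg _)
  · intro x hx hxy
    have h1 : |qq A c x| ≤ |qq A c y| := hmax x hx
    have h2 : |qq A c x| ≠ |qq A c y| := by
      intro he
      apply hxy
      refine (max_unique hA hcd hy hx hyp hmax ?_).symm
      intro z hz
      rw [he]
      exact hmax z hz
    have h3 := lt_of_le_of_ne h1 h2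
    rwa [qq_eq, qq_eq, abs_mul, abs_mul, abs_of_pos (Real.exp_pos _),
      abs_of_pos (Real.exp_pos _)] at h3

end Pool.Agent.MP_410f3c_al.G
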